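import Pool.Agent.H14Q2.Glob
import Pool.Agent.W313.BMX.Final

/-!
# The Brauer-Manin set of the curves `y² = (F² + a)(b F² + c)` with a certificate is empty
-/

set_option autoImplicit false

namespace Pool.Agent.H14Q

open Polynomial Pool.Agent.W313.BMX

/-- the two factors -/
noncomputable def fac (F : ℤ[X]) (a b c : ℤ) : Fin 2 → ℤ[X] := ![F ^ 2 + C a, C b * F ^ 2 + C c]

theorem fac_zero (F : ℤ[X]) (a b c : ℤ) : fac F a b c 0 = F ^ 2 + C a := rfl

theorem fac_one (F : ℤ[X]) (a b c : ℤ) : fac F a b c 1 = C b * F ^ 2 + C c := rfl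

theorem nat_sq (F : ℤ[X]) (b : ℤ) (hb : b ≠ 0) : (C b * F ^ 2).natDegree = F.natDegree * 2 := by
  rw [natDegree_C_mul hb, natDegree_pow, mul_comm]

theorem lc_add {G : ℤ[X]} (hG : 1 ≤ G.natDegree) (a : ℤ) :
    (G + C a).natDegree = G.natDegree ∧ (G + C a).leadingCoeff = G.leadingCoeff := by
  have h1 : (G + C a).natDegree = G.natDegree := natDegree_add_C
  refine ⟨h1, ?_⟩
  unfold leadingCoeff
  rw [h1, coeff_add, coeff_C, if_neg (by omega), add_zero]

theorem homs {F : ℤ[X]} (hF : 1 ≤ F.natDegree) {a b c : ℤ} (hb : b ≠ 0) {K : Type} [Field K]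
    [CharZero K] {x w : K} (h : x ≠ 0 ∨ w ≠ 0) :
    ∃ ξ η : K, (ξ ≠ 0 ∨ η ≠ 0) ∧ homog (fac F a b c 0) x w = ξ ^ 2 + a * η ^ 2 ∧
      homog (fac F a b c 1) x w = b * ξ ^ 2 + c * η ^ 2 := by
  have hF0 : F ≠ 0 := by
    rintro rfl
    simp at hF
  have d0 : (F ^ 2).natDegree = F.natDegree * 2 := by rw [natDegree_pow, mul_comm]
  have d1 := nat_sq F b hb
  obtain ⟨a1, a2⟩ := lc_add (G := F ^ 2) (by omega) a
  obtain ⟨b1, b2⟩ := lc_add (G := C b * F ^ 2) (by omega) c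
  rw [d0] at a1
  rw [d1] at b1
  rw [leadingCoeff_pow] at a2
  rw [leadingCoeff_mul, leadingCoeff_C, leadingCoeff_pow] at b2
  by_cases hw : w = 0
  · subst hw
    have hx : x ≠ 0 := h.resolve_right (fun h => h rfl)
    refine ⟨(F.leadingCoeff : K) * x ^ F.natDegree, 0, Or.inl ?_, ?_, ?_⟩
    · refine mul_ne_zero ?_ (pow_ne_zero _ hx)
      exact_mod_cast leadingCoeff_ne_zero.2 hF0
    · rw [fac_zero, Pool.Agent.W930.BMX.homog_zero, a1, a2]
      push_cast
      ring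
    · rw [fac_one, Pool.Agent.W930.BMX.homog_zero, b1, b2]
      push_cast
      ring
  · refine ⟨w ^ F.natDegree * F.eval₂ (Int.castRingHom K) (x / w), w ^ F.natDegree,
      Or.inr (pow_ne_zero _ hw), ?_, ?_⟩
    · rw [fac_zero, Pool.Agent.W930.BMX.homog_div _ hw, a1, eval₂_add, eval₂_pow, eval₂_C,
        eq_intCast]
      ring
    · rw [fac_one, Pool.Agent.W930.BMX.homog_div _ hw, b1, eval₂_add, eval₂_mul, eval₂_pow, eval₂_C,
        eval₂_C, eq_intCast, eq_intCast]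
      ring

theorem val_spec {F : ℤ[X]} (hF : 1 ≤ F.natDegree) {a b c : ℤ} (hb : b ≠ 0) (hk : c - a * b ≠ 0)
    {K : Type} [Field K] [CharZero K] (P : Point (fac F a b c) 1 K) :
    ∃ ξ η A1 B1 : K, (ξ ≠ 0 ∨ η ≠ 0) ∧ (B1 ≠ 0 ∨ A1 ≠ 0) ∧ value P 0 ≠ 0 ∧
      ξ ^ 2 + a * η ^ 2 = value P 0 * A1 ^ 2 ∧ b * ξ ^ 2 + c * η ^ 2 = value P 0 * B1 ^ 2 := by
  obtain ⟨ξ, η, h1, h2, h3⟩ := homs hF hb (a := a) (c := c) P.ne
  have heq := P.eq
  rw [Fin.prod_univ_two, Int.cast_one, one_mul] at heq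
  by_cases hA : homog (fac F a b c 0) P.x P.w = 0
  · have hv : value P 0 = homog (fac F a b c 1) P.x P.w := by
      unfold value
      rw [if_neg (by simpa using hA)]
      have : (Finset.univ : Finset (Fin 2)).erase 0 = {1} := by decide
      rw [this, Finset.prod_singleton, Int.cast_one, one_mul]
    have hB : homog (fac F a b c 1) P.x P.w ≠ 0 := by
      intro hB
      rw [h2] at hA
      rw [h3] at hB
      have h4 : ((c - a * b : ℤ) : K) * η ^ 2 = 0 := by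
        push_cast
        linear_combination hB - b * hA
      have hk' : ((c - a * b : ℤ) : K) ≠ 0 := by exact_mod_cast hk
      have hη : η = 0 := by
        rcases mul_eq_zero.1 h4 with h5 | h5
        · exact absurd h5 hk'
        · exact pow_eq_zero_iff two_ne_zero |>.1 h5
      rw [hη] at hA
      have hξ : ξ = 0 := by
        have : ξ ^ 2 = 0 := by linear_combination hA
        exact pow_eq_zero_iff two_ne_zero |>.1 this
      rcases h1 with h1 | h1
      · exact h1 hξ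
      · exact h1 hη
    refine ⟨ξ, η, 0, 1, h1, Or.inl one_ne_zero, by rw [hv]; exact hB, ?_, ?_⟩
    · rw [← h2, hA]
      ring
    · rw [← h3, hv]
      ring
  · have hv : value P 0 = homog (fac F a b c 0) P.x P.w := by
      unfold value
      rw [if_pos hA]
    refine ⟨ξ, η, 1, P.y / homog (fac F a b c 0) P.x P.w, h1, Or.inr one_ne_zero,
      by rw [hv]; exact hA, ?_, ?_⟩
    · rw [← h2, hv]
      ring
    · rw [← h3, hv]
      field_simp
      linear_combination -heq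

theorem Cert.n_ne {m n k : ℤ} (hc : Cert m n k) : n ≠ 0 := by
  rintro rfl
  obtain ⟨q, hq, ho⟩ := hc.2 1 k (one_mul k)
  have h1 : ¬ (q : ℤ) ∣ 1 := by
    intro h
    have := Int.isUnit_iff.1 (isUnit_of_dvd_one h)
    omega
  rcases ho 1 0 0 1 (by simp) (by simp) with ⟨h2, -⟩ | ⟨-, h2⟩
  · exact h1 h2
  · exact h1 h2

section padic

variable {p : ℕ} [hp : Fact p.Prime]

theorem val_even {m n k : ℤ} (hk : k ≠ 0) (hpk : ¬ (p : ℤ) ∣ k) {ξ η A1 B1 α : ℚ_[p]} (hα : α ≠ 0)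
    (h1 : ξ ^ 2 - m * η ^ 2 = α * A1 ^ 2)
    (h2 : n * (ξ ^ 2 - m * η ^ 2) + k * η ^ 2 = α * B1 ^ 2) (hξη : ξ ≠ 0 ∨ η ≠ 0)
    (hAB : B1 ≠ 0 ∨ A1 ≠ 0) : ∃ (m' : ℤ) (c : ℚ_[p]), ¬ (p : ℤ) ∣ m' ∧ α = m' * c ^ 2 := by
  obtain ⟨t, m', c, ht, hm', hc, hα'⟩ := Pool.Agent.W310.BMX.odd4 p α hα
  obtain ⟨r, s, u, v, g, h, -, -, -, -, hgh, τ, hτ, hg⟩ := local_sol hk hα h1 h2 hξη hAB
  have hp1 : (1 : ℝ) < p := by exact_mod_cast hp.out.one_lt
  rcases Nat.le_one_iff_eq_zero_or_eq_one.1 ht with rfl | rfl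
  · exact ⟨m', c, hm', by rw [hα']; push_cast; ring⟩
  · exfalso
    have hku : IsUnit ((k : ℤ) : ℤ_[p]) := by
      rw [PadicInt.isUnit_iff]
      exact le_antisymm (PadicInt.norm_le_one _)
        (not_lt.1 fun hlt => hpk ((PadicInt.norm_int_lt_one_iff_dvd (p := p) k).1 hlt))
    have hgu : IsUnit g := by
      rw [← hgh] at hku
      exact isUnit_of_mul_isUnit_left hku
    rw [PadicInt.isUnit_iff] at hgu
    have hg1 : ‖(g : ℚ_[p])‖ = 1 := hgu
    have hmn : ‖(m' : ℚ_[p])‖ = 1 := by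
      refine le_antisymm (Padic.norm_int_le_one m') (not_lt.1 fun hlt => hm' ?_)
      refine (PadicInt.norm_int_lt_one_iff_dvd (p := p) m').1 ?_
      rw [PadicInt.norm_def]
      exact_mod_cast hlt
    rw [hg, hα'] at hg1
    push_cast at hg1
    rw [pow_one, norm_mul, norm_mul, norm_mul, norm_pow, norm_pow, hmn, Padic.norm_p, mul_one] at hg1
    rw [Padic.norm_eq_zpow_neg_valuation hc, Padic.norm_eq_zpow_neg_valuation hτ] at hg1
    have hp0 : (p : ℝ) ≠ 0 := by linarith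
    have h3 : (p : ℝ) ^ (-1 + 2 * (-c.valuation) + 2 * (-τ.valuation)) = 1 := by
      rw [← hg1, zpow_add₀ hp0, zpow_add₀ hp0, zpow_neg_one, mul_comm 2 (-c.valuation),
        mul_comm 2 (-τ.valuation), zpow_mul, zpow_mul]
      norm_cast
    have h4 := (zpow_eq_one_iff_right₀ (by linarith : (0 : ℝ) ≤ (p : ℝ)) hp1.ne').1 h3
    omega

end padic

/-- every adelic point is obstructed -/
theorem bm_empty {F : ℤ[X]} (hF : 1 ≤ F.natDegree) {a b c : ℤ} (hc : Cert (-a) b (c - a * b))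
    (P : AdelicPoint (fac F a b c) 1) : ∃ e : ℤ, IsTest e ∧ Odd (ram (values P 0) e).ncard := by
  classical
  have hb := hc.n_ne
  have hk := hc.1
  by_contra hcon
  push Not at hcon
  have hR := val_spec hF hb hk P.re
  have hQ := fun p : Nat.Primes => val_spec hF hb hk (P.pa p)
  -- rewriting
  have hrw : ∀ (p : ℕ) [Fact p.Prime] (ξ η A B : ℚ_[p]), ξ ^ 2 + a * η ^ 2 = A →
      b * ξ ^ 2 + c * η ^ 2 = B → ξ ^ 2 - ((-a : ℤ) : ℚ_[p]) * η ^ 2 = A ∧
      b * (ξ ^ 2 - ((-a : ℤ) : ℚ_[p]) * η ^ 2) + ((c - a * b : ℤ) : ℚ_[p]) * η ^ 2 = B := by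
    intro p _ ξ η A B h1 h2
    push_cast
    constructor
    · linear_combination h1
    · linear_combination h2
  obtain ⟨N, hN, -, hNp⟩ := hexact (values P 0) (by
      obtain ⟨_, _, _, _, _, _, h, _⟩ := hR
      exact h) (by
      intro p
      obtain ⟨_, _, _, _, _, _, h, _⟩ := hQ p
      exact h) (by
      have hfin : {p : Nat.Primes | ((p : ℕ) : ℤ) ∣ c - a * b}.Finite := by
        have h1 : ((c - a * b).natAbs.primeFactors : Set ℕ).Finite := Finset.finite_toSet _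
        refine (h1.preimage (Subtype.val_injective.injOn (s := Set.univ) |>.mono
          (Set.subset_univ _))).subset ?_
        intro p hp
        simp only [Set.mem_preimage, Finset.mem_coe, Nat.mem_primeFactors]
        exact ⟨p.2, Int.natCast_dvd.1 hp, Int.natAbs_ne_zero.2 hk⟩
      refine hfin.subset ?_
      intro p hp
      by_contra hpk
      obtain ⟨ξ, η, A1, B1, h1, h2, h3, h4, h5⟩ := hQ p
      obtain ⟨h6, h7⟩ := hrw p ξ η _ _ h4 h5
      obtain ⟨m', c', h8, h9⟩ := val_even hk hpk h3 h6 h7 h1 h2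
      exact hp m' c' h8 h9) (by
      intro e he _
      rw [← Nat.not_odd_iff_even]
      exact hcon e he)
  refine cert_local hc hN ?_
  intro p hpf
  obtain ⟨ξ, η, A1, B1, h1, h2, h3, h4, h5⟩ := hQ ⟨p, hpf.out⟩
  obtain ⟨h6, h7⟩ := hrw p ξ η _ _ h4 h5
  obtain ⟨t, ht⟩ := hNp ⟨p, hpf.out⟩
  have hN0 : (N : ℚ_[p]) ≠ 0 := by exact_mod_cast hN.ne_zero
  have hval : value (P.pa ⟨p, hpf.out⟩) 0 = (N : ℚ_[p]) * (t / N) ^ 2 := by
    have : value (P.pa ⟨p, hpf.out⟩) 0 * (N : ℚ_[p]) = t * t := ht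
    field_simp
    linear_combination this
  have ht0 : t / (N : ℚ_[p]) ≠ 0 := by
    intro h0
    rw [h0] at hval
    exact h3 (by rw [hval]; ring)
  rw [hval] at h6 h7
  have h8 := local_sol (A1 := t / (N : ℚ_[p]) * A1) (B1 := t / (N : ℚ_[p]) * B1) hk hN0
    (by rw [h6]; ring) (by rw [h7]; ring) h1 (by
      rcases h2 with h | h
      · exact Or.inl (mul_ne_zero ht0 h)
      · exact Or.inr (mul_ne_zero ht0 h))
  exact h8

end Pool.Agent.H14Q
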