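import Pool.Agent.H14Q.Loc
import Pool.Agent.H341R2.WeilSharp
import Mathlib

/-!
# Local solubility of the curves `y² = (F² - m)(n (F² - m) + k)`
-/

set_option autoImplicit false

namespace Pool.Agent.H14Q

open Polynomial

/-- `y² = (F(x)² - m)(n (F(x)² - m) + k)` has a solution in `K` -/
def SolF (F : ℤ[X]) (m n k : ℤ) (K : Type) [Field K] : Prop :=
  ∃ x y : K, y ^ 2 = ((F.eval₂ (Int.castRingHom K) x) ^ 2 - m) *
    (n * ((F.eval₂ (Int.castRingHom K) x) ^ 2 - m) + k)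

theorem unbounded {K : Type} [NontriviallyNormedField K] [CharZero K] {F : ℤ[X]}
    (hF : 1 ≤ F.natDegree) (M : ℝ) : ∃ x : K, M < ‖F.eval₂ (Int.castRingHom K) x‖ := by
  have hdeg : 0 < (F.map (Int.castRingHom K)).degree := by
    rw [Polynomial.degree_map_eq_of_injective (RingHom.injective_int _)]
    exact natDegree_pos_iff_degree_pos.1 hF
  have h1 := Polynomial.tendsto_norm_atTop (F.map (Int.castRingHom K)) hdeg
    (tendsto_norm_cobounded_atTop (E := K))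
  obtain ⟨x, hx⟩ := (h1.eventually_gt_atTop M).exists
  refine ⟨x, ?_⟩
  rwa [eval_map] at hx

theorem solF_real {F : ℤ[X]} (hF : 1 ≤ F.natDegree) {m n k : ℤ} (hn : 1 ≤ n) : SolF F m n k ℝ := by
  obtain ⟨x, hx⟩ := unbounded (K := ℝ) hF (|(m : ℝ)| + |(k : ℝ)| + 1)
  obtain ⟨z, hz⟩ : ∃ z, z = F.eval₂ (Int.castRingHom ℝ) x := ⟨_, rfl⟩
  rw [← hz, Real.norm_eq_abs] at hx
  have h1 : |(m : ℝ)| + |(k : ℝ)| + 1 ≤ z ^ 2 := by
    have : 1 ≤ |z| := by linarith [abs_nonneg (m : ℝ), abs_nonneg (k : ℝ)]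
    calc |(m : ℝ)| + |(k : ℝ)| + 1 ≤ |z| := hx.le
      _ ≤ |z| ^ 2 := by nlinarith
      _ = z ^ 2 := sq_abs z
  have h2 : |(k : ℝ)| + 1 ≤ z ^ 2 - m := by linarith [le_abs_self (m : ℝ)]
  have hn' : (1 : ℝ) ≤ n := by exact_mod_cast hn
  have h3 : 0 ≤ (n : ℝ) * (z ^ 2 - m) + k := by
    have : (z ^ 2 - m : ℝ) ≤ n * (z ^ 2 - m) := by
      nlinarith [abs_nonneg (k : ℝ)]
    linarith [neg_abs_le (k : ℝ)]
  refine ⟨x, Real.sqrt ((z ^ 2 - m) * (n * (z ^ 2 - m) + k)), ?_⟩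
  rw [← hz, Real.sq_sqrt]
  exact mul_nonneg (by linarith [abs_nonneg (k : ℝ)]) h3

section padic

variable {p : ℕ} [hp : Fact p.Prime]

theorem solF_of_sq {F : ℤ[X]} (hF : 1 ≤ F.natDegree) {m n k : ℤ} (hn : n ≠ 0)
    (h : IsSquare (n : ℚ_[p])) : SolF F m n k ℚ_[p] := by
  obtain ⟨t, ht⟩ := h
  have hn' : (n : ℚ_[p]) ≠ 0 := by exact_mod_cast hn
  have h2 : (0 : ℝ) < ‖(2 : ℚ_[p])‖ ^ 2 := by
    have : (2 : ℚ_[p]) ≠ 0 := two_ne_zero
    positivity
  obtain ⟨x, hx⟩ := unbounded (K := ℚ_[p]) hF (1 + ‖(k : ℚ_[p]) / n‖ / ‖(2 : ℚ_[p])‖ ^ 2)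
  obtain ⟨z, hz⟩ : ∃ z, z = F.eval₂ (Int.castRingHom ℚ_[p]) x := ⟨_, rfl⟩
  rw [← hz] at hx
  have hdiv0 : 0 ≤ ‖(k : ℚ_[p]) / n‖ / ‖(2 : ℚ_[p])‖ ^ 2 := by positivity
  have hz1 : 1 < ‖z‖ := by linarith
  have hm1 : ‖(m : ℚ_[p])‖ ≤ 1 := Padic.norm_int_le_one m
  have hzz : ‖z ^ 2‖ = ‖z‖ ^ 2 := norm_pow z 2
  have hlt : ‖(m : ℚ_[p])‖ < ‖z ^ 2‖ := by
    rw [hzz]
    nlinarith
  have hT : ‖z ^ 2 - (m : ℚ_[p])‖ = ‖z‖ ^ 2 := by
    have := Padic.add_eq_max_of_ne (p := p) (q := z ^ 2) (r := -(m : ℚ_[p])) (by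
      rw [norm_neg]
      exact hlt.ne')
    rw [← sub_eq_add_neg, norm_neg, max_eq_left hlt.le, hzz] at this
    exact this
  obtain ⟨T, hTd⟩ : ∃ T, T = z ^ 2 - (m : ℚ_[p]) := ⟨_, rfl⟩
  rw [← hTd] at hT
  have hT0 : T ≠ 0 := by
    intro h0
    rw [h0, norm_zero] at hT
    nlinarith
  obtain ⟨b, hb⟩ := sq_one_add (p := p) (z := (k : ℚ_[p]) / n / T) (by
    rw [norm_div, hT, div_lt_iff₀ (by positivity)]
    have h3 : ‖(k : ℚ_[p]) / n‖ / ‖(2 : ℚ_[p])‖ ^ 2 < ‖z‖ ^ 2 := by nlinarith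
    rw [div_lt_iff₀ h2] at h3
    linarith)
  refine ⟨x, t * T * b, ?_⟩
  rw [← hz, ← hTd]
  have e : (t * T * b) ^ 2 = (t * t) * T ^ 2 * (b * b) := by ring
  rw [e, ← ht, ← hb]
  field_simp

end padic

/-- `G² = u + e d²` with `u ≠ 0` forces `G` to be constant -/
theorem sq_const {K : Type} [Field K] (h2 : (2 : K) ≠ 0) {G d : K[X]} {u e : K} (hu : u ≠ 0)
    (h : G ^ 2 = C u + C e * d ^ 2) : G.natDegree = 0 := by
  by_contra hG
  have hG1 : 1 ≤ G.natDegree := by omega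
  have h1 : C e * d ^ 2 = G ^ 2 + C (-u) := by
    rw [h, C_neg]
    ring
  have hn : (G ^ 2 + C (-u)).natDegree = G.natDegree * 2 := by
    rw [natDegree_add_C, natDegree_pow, mul_comm]
  have hl : (G ^ 2 + C (-u)).leadingCoeff = G.leadingCoeff ^ 2 := by
    unfold leadingCoeff
    rw [hn, coeff_add, coeff_C, if_neg (by omega), add_zero, ← leadingCoeff, mul_comm,
      coeff_pow_mul_natDegree]
  have he : e * d.leadingCoeff ^ 2 = G.leadingCoeff ^ 2 := by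
    rw [← hl, ← h1, leadingCoeff_mul, leadingCoeff_C, leadingCoeff_pow]
  have hlG : G.leadingCoeff ≠ 0 := by
    rw [leadingCoeff_ne_zero]
    rintro rfl
    simp at hG1
  have hld : d.leadingCoeff ≠ 0 := by
    intro h0
    rw [h0] at he
    have : G.leadingCoeff ^ 2 = 0 := by rw [← he]; ring
    exact hlG (pow_eq_zero_iff two_ne_zero |>.1 this)
  obtain ⟨ε, hε⟩ : ∃ ε, ε = G.leadingCoeff / d.leadingCoeff := ⟨_, rfl⟩
  have hεe : e = ε ^ 2 := by
    rw [hε]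
    field_simp
    linear_combination he
  have h3 : (G - C ε * d) * (G + C ε * d) = C u := by
    rw [hεe, C_pow] at h
    linear_combination h
  have hU : IsUnit (C u : K[X]) := isUnit_C.2 (isUnit_iff_ne_zero.2 hu)
  rw [← h3] at hU
  have h4 := natDegree_eq_zero_of_isUnit (isUnit_of_mul_isUnit_left hU)
  have h5 := natDegree_eq_zero_of_isUnit (isUnit_of_mul_isUnit_right hU)
  have h6 : G = C (1 / 2) * ((G - C ε * d) + (G + C ε * d)) := by
    have : (C (1 / 2) : K[X]) * 2 = 1 := by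
      have e2 : (2 : K[X]) = C 2 := (map_ofNat C 2).symm
      rw [e2, ← C_mul, one_div, inv_mul_cancel₀ h2, C_1]
    linear_combination (-G) * this
  have h7 : G.natDegree ≤ 0 := by
    conv_lhs => rw [h6]
    refine (natDegree_C_mul_le _ _).trans ?_
    refine (natDegree_add_le _ _).trans ?_
    rw [h4, h5]
    simp
  omega

/-- the polynomial is not a constant times a square -/
theorem not_sq {K : Type} [Field K] (h2 : (2 : K) ≠ 0) {G : K[X]} (hG : 1 ≤ G.natDegree) {m n k : K}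
    (hk : k ≠ 0) (hmn : ¬ (m = 0 ∧ n = 0)) (c : K) (h : K[X]) :
    (G ^ 2 - C m) * (C n * (G ^ 2 - C m) + C k) ≠ C c * h ^ 2 := by
  intro heq
  obtain ⟨T, hT⟩ : ∃ T, T = G ^ 2 - C m := ⟨_, rfl⟩
  obtain ⟨U, hU⟩ : ∃ U, U = C n * T + C k := ⟨_, rfl⟩
  rw [← hT, ← hU] at heq
  have hT0 : T ≠ 0 := by
    intro h0
    have : G ^ 2 = C m := by
      rw [h0] at hT
      linear_combination -hT
    have h3 : (G ^ 2).natDegree = 0 := by rw [this, natDegree_C]
    rw [natDegree_pow] at h3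
    omega
  have hcop : IsCoprime T U := by
    refine ⟨C (-n / k), C (1 / k), ?_⟩
    have e1 : (C (-n / k) : K[X]) = - (C n * C (1 / k)) := by
      rw [← C_mul, ← C_neg]
      congr 1
      field_simp
    have e2 : (C (1 / k) : K[X]) * C k = 1 := by
      rw [← C_mul, one_div, inv_mul_cancel₀ hk, C_1]
    rw [hU, e1]
    linear_combination e2
  have hU0 : U ≠ 0 := by
    intro h0
    rw [h0] at hcop
    have h3 : IsUnit T := isCoprime_zero_right.1 hcop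
    have h4 := natDegree_eq_zero_of_isUnit h3
    have h5 : T.natDegree = G.natDegree * 2 := by
      rw [hT, natDegree_sub_C, natDegree_pow, mul_comm]
    omega
  have hc : c ≠ 0 := by
    rintro rfl
    rw [C_0, zero_mul] at heq
    rcases mul_eq_zero.1 heq with h3 | h3
    · exact hT0 h3
    · exact hU0 h3
  have hcc : (C c⁻¹ : K[X]) * C c = 1 := by
    rw [← C_mul, inv_mul_cancel₀ hc, C_1]
  have hcu : IsUnit (C c⁻¹ : K[X]) := isUnit_C.2 (isUnit_iff_ne_zero.2 (inv_ne_zero hc))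
  have h3 : T * (U * C c⁻¹) = h ^ 2 := by
    linear_combination (C c⁻¹) * heq + h ^ 2 * hcc
  have hcop' : IsCoprime T (U * C c⁻¹) := by
    refine hcop.mul_right ?_
    exact ⟨0, C c, by linear_combination hcc⟩
  by_cases hm : m = 0
  · have hn : n ≠ 0 := fun hn => hmn ⟨hm, hn⟩
    obtain ⟨d, u, hu⟩ := exists_associated_pow_of_mul_eq_pow' hcop'.symm (by rw [mul_comm]; exact h3)
    obtain ⟨w, hw, hwu⟩ := Polynomial.isUnit_iff.1 u.isUnit
    rw [← hwu] at hu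
    -- U = c w d²
    have h4 : U = C c * C w * d ^ 2 := by
      linear_combination (-(C c)) * hu - U * hcc
    have h5 : G ^ 2 = C (-k / n) + C (c * w / n) * d ^ 2 := by
      have e1 : (C (-k / n) : K[X]) = -(C k * C n⁻¹) := by
        rw [← C_mul, ← C_neg]
        congr 1
        field_simp
      have e2 : (C (c * w / n) : K[X]) = C c * C w * C n⁻¹ := by
        rw [← C_mul, ← C_mul, div_eq_mul_inv]
      have e3 : (C n⁻¹ : K[X]) * C n = 1 := by rw [← C_mul, inv_mul_cancel₀ hn, C_1]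
      rw [hU, hT, hm, C_0, sub_zero] at h4
      rw [e1, e2]
      linear_combination (C n⁻¹) * h4 - G ^ 2 * e3
    have := sq_const h2 (div_ne_zero (neg_ne_zero.2 hk) hn) h5
    omega
  · obtain ⟨d, u, hu⟩ := exists_associated_pow_of_mul_eq_pow' hcop' h3
    obtain ⟨w, hw, hwu⟩ := Polynomial.isUnit_iff.1 u.isUnit
    rw [← hwu] at hu
    have h5 : G ^ 2 = C m + C w * d ^ 2 := by
      rw [hT] at hu
      linear_combination -hu
    have := sq_const h2 hm h5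
    omega

section padic

variable {p : ℕ} [hp : Fact p.Prime]

/-- a nonzero square value modulo `p` -/
theorem exists_value {d : ℕ} {G : (ZMod p)[X]} (hp2 : p ≠ 2) (hG1 : 1 ≤ G.natDegree)
    (hGd : G.natDegree ≤ d) (hpd : 64 * d ^ 2 ≤ p) {m n k : ZMod p} (hk : k ≠ 0)
    (hmn : ¬ (m = 0 ∧ n = 0)) :
    ∃ x : ZMod p, ((G.eval x) ^ 2 - m) * (n * ((G.eval x) ^ 2 - m) + k) ≠ 0 ∧
      IsSquare (((G.eval x) ^ 2 - m) * (n * ((G.eval x) ^ 2 - m) + k)) := by
  classical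
  have hcard : Fintype.card (ZMod p) = p := ZMod.card p
  have hchar : ringChar (ZMod p) ≠ 2 := by
    rw [ZMod.ringChar_zmod_n]
    exact hp2
  have h2 : (2 : ZMod p) ≠ 0 := Ring.two_ne_zero hchar
  obtain ⟨f, hf⟩ : ∃ f, f = (G ^ 2 - C m) * (C n * (G ^ 2 - C m) + C k) := ⟨_, rfl⟩
  have hev : ∀ x, f.eval x = ((G.eval x) ^ 2 - m) * (n * ((G.eval x) ^ 2 - m) + k) := by
    intro x
    rw [hf]
    simp
  have hns : ∀ (c : ZMod p) (h : (ZMod p)[X]), f ≠ C c * h ^ 2 := by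
    intro c h
    rw [hf]
    exact not_sq h2 hG1 hk hmn c h
  have hfd1 : 1 ≤ f.natDegree := by
    by_contra hcon
    have h0 : f.natDegree = 0 := by omega
    rw [natDegree_eq_zero] at h0
    obtain ⟨c, hc⟩ := h0
    exact hns c 1 (by rw [← hc]; ring)
  have hf0 : f ≠ 0 := by
    intro h0
    exact hns 0 1 (by rw [h0, C_0, zero_mul])
  have hfd : f.natDegree ≤ 4 * d := by
    have e1 : (G ^ 2 - C m).natDegree ≤ 2 * d := by
      rw [natDegree_sub_C, natDegree_pow]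
      omega
    have e2 : (C n * (G ^ 2 - C m) + C k).natDegree ≤ 2 * d := by
      rw [natDegree_add_C]
      exact (natDegree_C_mul_le _ _).trans e1
    rw [hf]
    exact natDegree_mul_le.trans (by omega)
  by_contra hcon
  push Not at hcon
  have hW := Pool.Agent.H341R2.Sharp.weil_sharp hchar f hfd1 hns
  rw [hcard] at hW
  have hle : ∑ x : ZMod p, (quadraticChar (ZMod p) (f.eval x) : ℝ) ≤ -(p : ℝ) + 4 * d := by
    have h1 : ∀ x : ZMod p, (quadraticChar (ZMod p) (f.eval x) : ℝ) ≤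
        -1 + (if x ∈ f.roots.toFinset then 1 else 0) := by
      intro x
      by_cases hx : f.eval x = 0
      · rw [if_pos (by rw [Multiset.mem_toFinset, mem_roots hf0]; exact hx), hx]
        simp
      · rw [if_neg (by rw [Multiset.mem_toFinset, mem_roots hf0]; exact hx)]
        have h3 := hcon x (by rw [← hev]; exact hx)
        rw [← hev] at h3
        rw [quadraticChar_neg_one_iff_not_isSquare.2 h3]
        norm_num
    have h2 := Finset.sum_le_sum fun x (_ : x ∈ (Finset.univ : Finset (ZMod p))) => h1 x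
    rw [Finset.sum_add_distrib, Finset.sum_const, Finset.card_univ, hcard, ← Finset.sum_filter] at h2
    simp only [nsmul_eq_mul, mul_neg, mul_one, Finset.filter_univ_mem, Finset.sum_const] at h2
    have h3 : (f.roots.toFinset.card : ℝ) ≤ 4 * d := by
      have h4 : f.roots.toFinset.card ≤ 4 * d :=
        (Multiset.toFinset_card_le _).trans ((card_roots' f).trans hfd)
      exact_mod_cast h4
    linarith
  have habs := (abs_le.1 hW).1
  have hd1 : 1 ≤ d := hG1.trans hGd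
  have hd1r : (1 : ℝ) ≤ d := by exact_mod_cast hd1
  have hpr : (64 : ℝ) * d ^ 2 ≤ p := by exact_mod_cast hpd
  have hs0 : 0 ≤ Real.sqrt p := Real.sqrt_nonneg _
  have hss : Real.sqrt p * Real.sqrt p = p := Real.mul_self_sqrt (Nat.cast_nonneg _)
  have hs8 : 8 * (d : ℝ) ≤ Real.sqrt p := by
    refine Real.le_sqrt_of_sq_le ?_
    nlinarith
  have hfr : (f.natDegree : ℝ) ≤ 4 * d := by exact_mod_cast hfd
  have h5 : ((f.natDegree : ℝ) - 1) * Real.sqrt p ≤ (4 * d - 1) * Real.sqrt p :=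
    mul_le_mul_of_nonneg_right (by linarith) hs0
  nlinarith

/-- the good odd primes -/
theorem solF_good {F : ℤ[X]} (hF : 1 ≤ F.natDegree) {m n k : ℤ} (hp2 : p ≠ 2)
    (hlc : ¬ (p : ℤ) ∣ F.leadingCoeff) (hpd : 64 * F.natDegree ^ 2 ≤ p) (hk : ¬ (p : ℤ) ∣ k)
    (hmn : ¬ ((p : ℤ) ∣ m ∧ (p : ℤ) ∣ n)) : SolF F m n k ℚ_[p] := by
  have hlc' : (Int.castRingHom (ZMod p)) F.leadingCoeff ≠ 0 := by
    rw [eq_intCast, Ne, ZMod.intCast_zmod_eq_zero_iff_dvd]
    exact hlc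
  have hnd : (F.map (Int.castRingHom (ZMod p))).natDegree = F.natDegree :=
    natDegree_map_of_leadingCoeff_ne_zero _ hlc'
  obtain ⟨x, hx0, hx⟩ := exists_value (p := p) (d := F.natDegree)
    (G := F.map (Int.castRingHom (ZMod p))) (m := (m : ZMod p)) (n := (n : ZMod p))
    (k := (k : ZMod p)) hp2 (by rw [hnd]; exact hF) (by rw [hnd]) hpd (by
      rw [Ne, ZMod.intCast_zmod_eq_zero_iff_dvd]
      exact hk) (by
      rw [ZMod.intCast_zmod_eq_zero_iff_dvd, ZMod.intCast_zmod_eq_zero_iff_dvd]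
      exact hmn)
  obtain ⟨z, rfl⟩ := ZMod.intCast_surjective x
  obtain ⟨v, hv⟩ : ∃ v : ℤ, v = ((F.eval z) ^ 2 - m) * (n * ((F.eval z) ^ 2 - m) + k) := ⟨_, rfl⟩
  have hev : (F.map (Int.castRingHom (ZMod p))).eval ((z : ℤ) : ZMod p) =
      ((F.eval z : ℤ) : ZMod p) := by
    rw [eval_map, ← eq_intCast (Int.castRingHom (ZMod p)) z, eval₂_at_apply, eq_intCast]
  have hvm : ((v : ℤ) : ZMod p) = (((F.map (Int.castRingHom (ZMod p))).eval ((z : ℤ) : ZMod p)) ^ 2 -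
      (m : ZMod p)) * ((n : ZMod p) * (((F.map (Int.castRingHom (ZMod p))).eval
      ((z : ℤ) : ZMod p)) ^ 2 - (m : ZMod p)) + (k : ZMod p)) := by
    rw [hv, hev]
    push_cast
    ring
  rw [← hvm] at hx0 hx
  have hpv : ¬ (p : ℤ) ∣ v := by
    rw [← ZMod.intCast_zmod_eq_zero_iff_dvd]
    exact hx0
  obtain ⟨y, hy⟩ := isSquare_odd hp2 hpv hx
  refine ⟨(z : ℚ_[p]), y, ?_⟩
  have hev2 : F.eval₂ (Int.castRingHom ℚ_[p]) (z : ℚ_[p]) = ((F.eval z : ℤ) : ℚ_[p]) := by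
    have := eval₂_at_apply (p := F) (Int.castRingHom ℚ_[p]) z
    rw [eq_intCast, eq_intCast] at this
    exact this
  rw [hev2, pow_two, ← hy, hv]
  push_cast
  ring

end padic

/-- the modulus -/
def B0 (F : ℤ[X]) : ℕ := 8 * ((64 * F.natDegree ^ 2).factorial * F.leadingCoeff.natAbs)

theorem B0_dvd {F : ℤ[X]} {p : ℕ} (hp : p.Prime) (h : ¬ p ∣ B0 F) :
    p ≠ 2 ∧ ¬ (p : ℤ) ∣ F.leadingCoeff ∧ 64 * F.natDegree ^ 2 ≤ p := by
  unfold B0 at h
  refine ⟨?_, ?_, ?_⟩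
  · rintro rfl
    exact h ((by norm_num : 2 ∣ 8).mul_right _)
  · intro hd
    exact h (((Int.natCast_dvd.1 hd).mul_left _).mul_left _)
  · by_contra hlt
    exact h (((hp.dvd_factorial.2 (by omega)).mul_right _).mul_left _)

/-- a sufficient condition for local solubility -/
theorem solF_all {F : ℤ[X]} (hF : 1 ≤ F.natDegree) {m n k : ℤ} (hn : 1 ≤ n)
    (h8 : (B0 F : ℤ) ∣ n - 1)
    (hpk : ∀ p : ℕ, p.Prime → ¬ p ∣ B0 F → (p : ℤ) ∣ k → ¬ (p : ℤ) ∣ n ∧ IsSquare (n : ZMod p))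
    (hg : ∀ p : ℕ, p.Prime → ¬ p ∣ B0 F → ¬ ((p : ℤ) ∣ m ∧ (p : ℤ) ∣ n)) :
    SolF F m n k ℝ ∧ ∀ (p : ℕ) [Fact p.Prime], SolF F m n k ℚ_[p] := by
  refine ⟨solF_real hF hn, fun p hpp => ?_⟩
  by_cases hpB : p ∣ B0 F
  · refine solF_of_sq hF (by omega) ?_
    by_cases h2 : p = 2
    · subst h2
      refine isSquare_two ?_
      have : (8 : ℤ) ∣ n - 1 := by
        refine dvd_trans ?_ h8
        unfold B0
        push_cast
        exact dvd_mul_right _ _
      omega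
    · have h1 : (p : ℤ) ∣ n - 1 := (by exact_mod_cast hpB : (p : ℤ) ∣ (B0 F : ℤ)).trans h8
      have h3 : ((n : ℤ) : ZMod p) = 1 := by
        have := (ZMod.intCast_zmod_eq_zero_iff_dvd (n - 1) p).2 h1
        push_cast at this
        linear_combination this
      refine isSquare_odd h2 ?_ ?_
      · rw [← ZMod.intCast_zmod_eq_zero_iff_dvd, h3]
        exact one_ne_zero
      · rw [h3]
        exact IsSquare.one
  · obtain ⟨h2, hlc, hpd⟩ := B0_dvd hpp.out hpB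
    by_cases hk : (p : ℤ) ∣ k
    · obtain ⟨h3, h4⟩ := hpk p hpp.out hpB hk
      refine solF_of_sq hF (by omega) (isSquare_odd h2 h3 h4)
    · exact solF_good hF h2 hlc hpd hk (hg p hpp.out hpB)

end Pool.Agent.H14Q
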