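import Pool.Agent.H14Q.Res

/-!
# Residue classes which are `1` modulo `B` and nonzero squares modulo given primes
-/

set_option autoImplicit false

namespace Pool.Agent.H14Q

open Finset

open Classical in
/-- the classes modulo `B ∏ D` -/
noncomputable def RsB (B : ℕ) (D : Finset ℕ) : Finset ℕ :=
  (range (B * ∏ q ∈ D, q)).filter fun a => a % B = 1 ∧
    ∀ q ∈ D, ((a : ℕ) : ZMod q) ≠ 0 ∧ IsSquare ((a : ℕ) : ZMod q)

theorem coprime_prodB {B : ℕ} {D : Finset ℕ} (hD : ∀ q ∈ D, q.Prime) {p : ℕ} (hp : p.Prime)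
    (hpB : ¬ p ∣ B) (hpD : p ∉ D) : (B * ∏ q ∈ D, q).Coprime p := by
  refine Nat.Coprime.mul_left ?_ ?_
  · exact ((Nat.Prime.coprime_iff_not_dvd hp).2 hpB).symm
  · refine Nat.Coprime.prod_left fun q hq => ?_
    refine (Nat.coprime_primes (hD q hq) hp).2 ?_
    rintro rfl
    exact hpD hq

theorem card_RsB {B : ℕ} (hB : 2 ≤ B) (D : Finset ℕ)
    (hD : ∀ q ∈ D, q.Prime ∧ q ≠ 2 ∧ ¬ q ∣ B) :
    ∏ q ∈ D, (((q : ℝ) - 1) / 2) ≤ ((RsB B D).card : ℝ) := by
  classical
  induction D using Finset.induction_on with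
  | empty =>
    rw [Finset.prod_empty]
    have h1 : (1 : ℕ) ∈ RsB B ∅ := by
      unfold RsB
      rw [mem_filter, mem_range, Finset.prod_empty, mul_one]
      refine ⟨by omega, Nat.mod_eq_of_lt (by omega), by simp⟩
    have : 0 < (RsB B ∅).card := card_pos.2 ⟨1, h1⟩
    exact_mod_cast this
  | insert p D hp ih =>
    have hpp := hD p (mem_insert_self p D)
    have hD' : ∀ q ∈ D, q.Prime ∧ q ≠ 2 ∧ ¬ q ∣ B := fun q hq => hD q (mem_insert_of_mem hq)
    have : Fact p.Prime := ⟨hpp.1⟩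
    have hcop := coprime_prodB (fun q hq => (hD' q hq).1) hpp.1 hpp.2.2 hp
    set M := B * ∏ q ∈ D, q with hM
    have hM0 : 0 < M := Nat.mul_pos (by omega) (Finset.prod_pos fun q hq => (hD' q hq).1.pos)
    -- the squares modulo p
    set S : Finset ℕ := (range p).filter fun b => ((b : ℕ) : ZMod p) ≠ 0 ∧ IsSquare ((b : ℕ) : ZMod p)
      with hS
    have hScard : p ≤ 2 * S.card + 1 := by
      refine (card_sq hpp.2.1 (S.image fun b => ((b : ℕ) : ZMod p)) ?_).trans ?_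
      · intro b hb hs
        rw [mem_image]
        refine ⟨b.val, ?_, ZMod.natCast_zmod_val b⟩
        rw [hS, mem_filter, mem_range, ZMod.natCast_zmod_val]
        exact ⟨ZMod.val_lt b, hb, hs⟩
      · have := card_image_le (s := S) (f := fun b => ((b : ℕ) : ZMod p))
        omega
    have hinj : (RsB B D).card * S.card ≤ (RsB B (insert p D)).card := by
      rw [← card_product]
      refine card_le_card_of_injOn (fun x => (Nat.chineseRemainder hcop x.1 x.2 : ℕ)) ?_ ?_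
      · rintro ⟨a, b⟩ hab
        obtain ⟨ha, hb⟩ := mem_product.1 (mem_coe.1 hab)
        simp only at ha hb
        set c := Nat.chineseRemainder hcop a b with hc
        have c1 : (c : ℕ) ≡ a [MOD M] := c.2.1
        have c2 : (c : ℕ) ≡ b [MOD p] := c.2.2
        have c3 : (c : ℕ) < M * p := Nat.chineseRemainder_lt_mul hcop a b hM0.ne' hpp.1.ne_zero
        rw [mem_coe]
        unfold RsB at ha ⊢
        rw [mem_filter, mem_range] at ha
        rw [hS, mem_filter, mem_range] at hb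
        rw [mem_filter, mem_range, Finset.prod_insert hp]
        refine ⟨?_, ?_, ?_⟩
        · have : B * (p * ∏ q ∈ D, q) = M * p := by rw [hM]; ring
          rw [this]
          exact c3
        · have h8 : (c : ℕ) ≡ a [MOD B] := c1.of_dvd (dvd_mul_right _ _)
          unfold Nat.ModEq at h8
          rw [h8]
          exact ha.2.1
        · intro q hq
          rcases mem_insert.1 hq with rfl | hq
          · have : ((c : ℕ) : ZMod q) = ((b : ℕ) : ZMod q) :=
              (ZMod.natCast_eq_natCast_iff _ _ _).2 c2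
            rw [this]
            exact hb.2
          · have hqM : q ∣ M := (Finset.dvd_prod_of_mem _ hq).mul_left B
            have : ((c : ℕ) : ZMod q) = ((a : ℕ) : ZMod q) :=
              (ZMod.natCast_eq_natCast_iff _ _ _).2 (c1.of_dvd hqM)
            rw [this]
            exact ha.2.2 q hq
      · rintro ⟨a, b⟩ hab ⟨a', b'⟩ hab' h
        obtain ⟨ha, hb⟩ := mem_product.1 (mem_coe.1 hab)
        obtain ⟨ha', hb'⟩ := mem_product.1 (mem_coe.1 hab')
        simp only at ha hb ha' hb' h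
        unfold RsB at ha ha'
        rw [mem_filter, mem_range] at ha ha'
        rw [hS, mem_filter, mem_range] at hb hb'
        have c1 : ((Nat.chineseRemainder hcop a b : ℕ)) ≡ a [MOD M] :=
          (Nat.chineseRemainder hcop a b).2.1
        have c2 : ((Nat.chineseRemainder hcop a b : ℕ)) ≡ b [MOD p] :=
          (Nat.chineseRemainder hcop a b).2.2
        have c1' : ((Nat.chineseRemainder hcop a' b' : ℕ)) ≡ a' [MOD M] :=
          (Nat.chineseRemainder hcop a' b').2.1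
        have c2' : ((Nat.chineseRemainder hcop a' b' : ℕ)) ≡ b' [MOD p] :=
          (Nat.chineseRemainder hcop a' b').2.2
        rw [← h] at c1' c2'
        have e1 : a = a' := Nat.ModEq.eq_of_lt_of_lt (c1.symm.trans c1') ha.1 ha'.1
        have e2 : b = b' := Nat.ModEq.eq_of_lt_of_lt (c2.symm.trans c2') hb.1 hb'.1
        rw [e1, e2]
    rw [Finset.prod_insert hp]
    have hih := ih hD'
    have h5 : ((p : ℝ) - 1) / 2 ≤ (S.card : ℝ) := by
      have : (p : ℝ) ≤ 2 * (S.card : ℝ) + 1 := by exact_mod_cast hScard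
      linarith
    have h6 : (0 : ℝ) ≤ ∏ q ∈ D, (((q : ℝ) - 1) / 2) := Finset.prod_nonneg fun q hq => by
      have : (1 : ℝ) ≤ q := by exact_mod_cast (hD' q hq).1.one_lt.le
      linarith
    calc ((p : ℝ) - 1) / 2 * ∏ q ∈ D, (((q : ℝ) - 1) / 2) ≤ (S.card : ℝ) * ((RsB B D).card : ℝ) :=
          mul_le_mul h5 hih h6 (Nat.cast_nonneg _)
      _ = (((RsB B D).card * S.card : ℕ) : ℝ) := by push_cast; ring
      _ ≤ ((RsB B (insert p D)).card : ℝ) := by exact_mod_cast hinj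

open Classical in
/-- the pairs `(m, n)` for `D` -/
noncomputable def TpB (B : ℕ) (D : Finset ℕ) (H : ℕ) : Finset (ℕ × ℕ) :=
  (Icc 1 H ×ˢ Icc 1 H).filter fun p => p.2 % B = 1 ∧ p.1.Coprime p.2 ∧
    ∀ q ∈ D, ((p.2 : ℕ) : ZMod q) ≠ 0 ∧ IsSquare ((p.2 : ℕ) : ZMod q)

theorem card_TpB {B : ℕ} (hB : 2 ≤ B) (hB2 : 2 ∣ B) {D : Finset ℕ}
    (hD : ∀ q ∈ D, q.Prime ∧ q ≠ 2 ∧ ¬ q ∣ B) {H : ℕ} (hH : 1 ≤ H)
    (hM : 4 * (B : ℝ) * ((∏ q ∈ D, q : ℕ) : ℝ) * (2 + Real.log H) ≤ H) :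
    (H : ℝ) ^ 2 / (4 * B) * ∏ q ∈ D, (((q : ℝ) - 1) / (2 * q)) ≤ ((TpB B D H).card : ℝ) := by
  classical
  obtain ⟨K, hK⟩ : ∃ K, K = ∏ q ∈ D, q := ⟨_, rfl⟩
  rw [← hK] at hM
  have hK0 : 0 < K := by rw [hK]; exact Finset.prod_pos fun q hq => (hD q hq).1.pos
  have hKr : (0 : ℝ) < K := by exact_mod_cast hK0
  have hBr : (0 : ℝ) < B := by
    have : 0 < B := by omega
    exact_mod_cast this
  have hHr : (1 : ℝ) ≤ H := by exact_mod_cast hH
  have hRs : ∀ a ∈ RsB B D, a < B * K ∧ a % B = 1 ∧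
      ∀ q ∈ D, ((a : ℕ) : ZMod q) ≠ 0 ∧ IsSquare ((a : ℕ) : ZMod q) := by
    intro a ha
    unfold RsB at ha
    rw [mem_filter, mem_range, ← hK] at ha
    exact ha
  have hcop : ∀ a ∈ RsB B D, a.Coprime (B * K) := by
    intro a ha
    obtain ⟨h1, h2, h3⟩ := hRs a ha
    refine Nat.Coprime.mul_right ?_ ?_
    · have h5 : a ≡ 1 [MOD B] := by
        unfold Nat.ModEq
        rw [h2, Nat.mod_eq_of_lt (by omega)]
      rw [Nat.coprime_iff_gcd_eq_one, h5.gcd_eq]
      exact Nat.gcd_one_left B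
    · rw [hK]
      refine Nat.Coprime.prod_right fun q hq => ?_
      rw [Nat.coprime_comm, (hD q hq).1.coprime_iff_not_dvd]
      intro hd
      exact (h3 q hq).1 ((ZMod.natCast_eq_zero_iff a q).2 hd)
  have hsub : ((RsB B D).biUnion fun a => (prog (B * K) a H).filter fun p => p.1.Coprime p.2) ⊆
      TpB B D H := by
    intro p hp
    rw [mem_biUnion] at hp
    obtain ⟨a, ha, hp⟩ := hp
    rw [mem_filter] at hp
    unfold prog at hp
    rw [mem_product, mem_filter] at hp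
    obtain ⟨⟨h1, h2, h3⟩, h4⟩ := hp
    obtain ⟨h5, h6, h7⟩ := hRs a ha
    have h8 : p.2 ≡ a [MOD B * K] := h3
    unfold TpB
    rw [mem_filter, mem_product]
    refine ⟨⟨h1, h2⟩, ?_, h4, ?_⟩
    · have : p.2 ≡ a [MOD B] := h8.of_dvd (dvd_mul_right _ _)
      unfold Nat.ModEq at this
      rw [this]
      exact h6
    · intro q hq
      have : ((p.2 : ℕ) : ZMod q) = ((a : ℕ) : ZMod q) :=
        (ZMod.natCast_eq_natCast_iff _ _ _).2
          (h8.of_dvd ((hK ▸ Finset.dvd_prod_of_mem _ hq).mul_left B))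
      rw [this]
      exact h7 q hq
  have hdis : ∀ a ∈ RsB B D, ∀ b ∈ RsB B D, a ≠ b →
      Disjoint ((prog (B * K) a H).filter fun p => p.1.Coprime p.2)
        ((prog (B * K) b H).filter fun p => p.1.Coprime p.2) := by
    intro a ha b hb hab
    rw [disjoint_left]
    intro p hp1 hp2
    rw [mem_filter] at hp1 hp2
    unfold prog at hp1 hp2
    rw [mem_product, mem_filter] at hp1 hp2
    apply hab
    have h1 := (hRs a ha).1
    have h2 := (hRs b hb).1
    rw [← Nat.mod_eq_of_lt h1, ← Nat.mod_eq_of_lt h2, ← hp1.1.2.2, ← hp2.1.2.2]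
  have h1 := card_le_card hsub
  rw [card_biUnion hdis] at h1
  obtain ⟨f, hf⟩ : ∃ f : ℕ → ℕ, ∀ a, f a =
    ((prog (B * K) a H).filter fun p => p.1.Coprime p.2).card := ⟨_, fun _ => rfl⟩
  have h1' : ∑ a ∈ RsB B D, f a ≤ (TpB B D H).card := by
    rw [Finset.sum_congr rfl fun a _ => hf a]
    exact h1
  have h2 : ∀ a ∈ RsB B D, (H : ℝ) ^ 2 / (4 * B * K) ≤ (f a : ℝ) := by
    intro a ha
    rw [hf]
    have h3 := cop (M := B * K) (a := a) (H := H) (by
      rw [even_iff_two_dvd]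
      exact hB2.mul_right _) (Nat.mul_pos (by omega) hK0) (hcop a ha)
      (hRs a ha).1.le hH
    push_cast at h3
    have h4 : (H : ℝ) * (2 + Real.log H) ≤ (H : ℝ) ^ 2 / (4 * B * K) := by
      rw [le_div_iff₀ (by positivity)]
      calc (H : ℝ) * (2 + Real.log H) * (4 * B * K) = H * (4 * B * K * (2 + Real.log H)) := by ring
        _ ≤ H * H := mul_le_mul_of_nonneg_left hM (by linarith)
        _ = (H : ℝ) ^ 2 := by ring
    have e : (H : ℝ) ^ 2 / (2 * (B * K)) = 2 * ((H : ℝ) ^ 2 / (4 * B * K)) := by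
      field_simp
      norm_num
    rw [e] at h3
    linarith
  have h3 : ((RsB B D).card : ℝ) * ((H : ℝ) ^ 2 / (4 * B * K)) ≤ ((TpB B D H).card : ℝ) := by
    have h4 : ∑ a ∈ RsB B D, (f a : ℝ) ≤ ((TpB B D H).card : ℝ) := by exact_mod_cast h1'
    refine le_trans ?_ h4
    have := Finset.card_nsmul_le_sum (RsB B D) (fun a => (f a : ℝ)) _ h2
    rwa [nsmul_eq_mul] at this
  have h4 := card_RsB hB D hD
  obtain ⟨Y, hY⟩ : ∃ Y : ℝ, Y = (H : ℝ) ^ 2 / (4 * B * K) := ⟨_, rfl⟩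
  have hY0 : 0 ≤ Y := by rw [hY]; positivity
  rw [← hY] at h3
  have h5 : (∏ q ∈ D, (((q : ℝ) - 1) / 2)) * Y ≤ ((TpB B D H).card : ℝ) :=
    le_trans (mul_le_mul_of_nonneg_right h4 hY0) h3
  have e : ∏ q ∈ D, (((q : ℝ) - 1) / (2 * q)) = (∏ q ∈ D, (((q : ℝ) - 1) / 2)) / K := by
    have e2 : (K : ℝ) = ∏ q ∈ D, (q : ℝ) := by
      rw [hK]
      push_cast
      rfl
    rw [e2, ← Finset.prod_div_distrib]
    refine Finset.prod_congr rfl fun q hq => ?_
    rw [div_div]
  have e3 : (H : ℝ) ^ 2 / (4 * B) * ((∏ q ∈ D, (((q : ℝ) - 1) / 2)) / K) =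
      (∏ q ∈ D, (((q : ℝ) - 1) / 2)) * Y := by
    rw [hY]
    field_simp
  rw [e, e3]
  exact h5

end Pool.Agent.H14Q
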