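import Pool.Agent.H14Q2.Err
import Pool.Agent.H14Q2.Res4
import Pool.Agent.H14Q2.Els

/-!
# Lower bound for the number of everywhere locally soluble curves `y² = (F² - m)(n (F² - m) + k)`
-/

set_option autoImplicit false

namespace Pool.Agent.H14Q

open Finset Pool.Agent.H306R2.RZ

/-- everywhere locally soluble -/
def ELSF (F : Polynomial ℤ) (m n k : ℤ) : Prop :=
  SolF F m n k ℝ ∧ ∀ (p : ℕ) [Fact p.Prime], SolF F m n k ℚ_[p]

open Classical in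
theorem half_card {H z : ℕ} {T : Finset (ℕ × ℕ)} (hT : ∀ x ∈ T, x.1 ∈ Icc 1 H ∧ x.2 ∈ Icc 1 H) :
    ((Pr H z).card : ℝ) * (T.card : ℝ) / 2 - (∑ p ∈ Pr H z, |∑ x ∈ T, js (x.2 : ℤ) p|) / 2 ≤
      (((Pr H z ×ˢ T).filter fun y => IsSquare ((y.2.2 : ℕ) : ZMod y.1)).card : ℝ) := by
  have h1 : ∀ p ∈ Pr H z, ∀ x ∈ T, (1 + js (x.2 : ℤ) p) / 2 ≤
      (if IsSquare ((x.2 : ℕ) : ZMod p) then 1 else 0 : ℝ) := by
    intro p hp x hx
    unfold Pr at hp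
    rw [mem_filter, mem_range] at hp
    obtain ⟨-, hpp, -, hpH⟩ := hp
    have hxH := mem_Icc.1 (hT x hx).2
    have : Fact p.Prime := ⟨hpp⟩
    have hne : (((x.2 : ℕ) : ℤ) : ZMod p) ≠ 0 := by
      rw [Ne, ZMod.intCast_zmod_eq_zero_iff_dvd]
      intro hd
      have h2 : p ∣ x.2 := by exact_mod_cast hd
      have := Nat.le_of_dvd (by omega) h2
      omega
    unfold js
    rw [← jacobiSym.legendreSym.to_jacobiSym]
    by_cases hs : IsSquare ((x.2 : ℕ) : ZMod p)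
    · rw [if_pos hs, (legendreSym.eq_one_iff p hne).2 (by push_cast; exact hs)]
      norm_num
    · rw [if_neg hs, (legendreSym.eq_neg_one_iff p).2 (by push_cast; exact hs)]
      norm_num
  have h2 : (((Pr H z ×ˢ T).filter fun y => IsSquare ((y.2.2 : ℕ) : ZMod y.1)).card : ℝ) =
      ∑ p ∈ Pr H z, ∑ x ∈ T, (if IsSquare ((x.2 : ℕ) : ZMod p) then 1 else 0 : ℝ) := by
    rw [Finset.card_filter, Finset.sum_product]
    push_cast
    rfl
  rw [h2]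
  have h3 : ∑ p ∈ Pr H z, ∑ x ∈ T, (1 + js (x.2 : ℤ) p) / 2 ≤
      ∑ p ∈ Pr H z, ∑ x ∈ T, (if IsSquare ((x.2 : ℕ) : ZMod p) then 1 else 0 : ℝ) :=
    Finset.sum_le_sum fun p hp => Finset.sum_le_sum fun x hx => h1 p hp x hx
  refine le_trans ?_ h3
  have h4 : ∀ p ∈ Pr H z, (T.card : ℝ) / 2 - |∑ x ∈ T, js (x.2 : ℤ) p| / 2 ≤
      ∑ x ∈ T, (1 + js (x.2 : ℤ) p) / 2 := by
    intro p _
    rw [← Finset.sum_div, Finset.sum_add_distrib, Finset.sum_const, nsmul_eq_mul, mul_one]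
    linarith [neg_abs_le (∑ x ∈ T, js (x.2 : ℤ) p)]
  refine le_trans (le_of_eq ?_) (Finset.sum_le_sum h4)
  rw [Finset.sum_sub_distrib, Finset.sum_const, nsmul_eq_mul, ← Finset.sum_div]
  ring

/-- the triples constructed are good -/
theorem good_tripleF {F : Polynomial ℤ} (hF : 1 ≤ F.natDegree) {D : Finset ℕ}
    (hD : ∀ q ∈ D, q.Prime ∧ q ≠ 2 ∧ ¬ q ∣ B0 F) {H p m n : ℕ}
    (hp : p ∈ Pr H (H ^ 2 / ∏ q ∈ D, q)) (hmn : (m, n) ∈ TpB (B0 F) D H)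
    (hs : IsSquare ((n : ℕ) : ZMod p)) :
    ((m : ℤ), (n : ℤ), (((∏ q ∈ D, q) * p : ℕ) : ℤ)) ∈ box3 H ∧
      (((∏ q ∈ D, q) * p : ℕ) : ℤ) ≠ 0 ∧ ELSF F m n (((∏ q ∈ D, q) * p : ℕ) : ℤ) ∧
      (m : ℤ) * n ≠ 0 ∧ (m : ℤ) * n ≠ (((∏ q ∈ D, q) * p : ℕ) : ℤ) := by
  classical
  obtain ⟨K, hK⟩ : ∃ K, K = ∏ q ∈ D, q := ⟨_, rfl⟩
  rw [← hK] at hp ⊢
  have hK0 : 0 < K := by rw [hK]; exact Finset.prod_pos fun q hq => (hD q hq).1.pos
  unfold Pr at hp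
  rw [mem_filter, mem_range] at hp
  obtain ⟨hpz, hpp, hp4, hpH⟩ := hp
  unfold TpB at hmn
  rw [mem_filter, mem_product, mem_Icc, mem_Icc] at hmn
  obtain ⟨⟨⟨hm1, hmH⟩, hn1, hnH⟩, h8, hcop, hsq⟩ := hmn
  simp only at hm1 hmH hn1 hnH h8 hcop hsq
  have hpm : ¬ (p : ℤ) ∣ (m : ℤ) := by
    intro hd
    have h1 : p ∣ m := by exact_mod_cast hd
    have := Nat.le_of_dvd (by omega) h1
    omega
  have hpn : ¬ (p : ℤ) ∣ (n : ℤ) := by
    intro hd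
    have h1 : p ∣ n := by exact_mod_cast hd
    have := Nat.le_of_dvd (by omega) h1
    omega
  have hKp : K * p ≤ H ^ 2 := by
    have h1 : p ≤ H ^ 2 / K := by omega
    calc K * p ≤ K * (H ^ 2 / K) := Nat.mul_le_mul_left _ h1
      _ ≤ H ^ 2 := Nat.mul_div_le _ _
  have hn0 : (n : ℤ) ≠ 0 := by
    have : (0 : ℤ) < n := by exact_mod_cast hn1
    exact this.ne'
  have hm0 : (m : ℤ) ≠ 0 := by
    have : (0 : ℤ) < m := by exact_mod_cast hm1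
    exact this.ne'
  refine ⟨?_, ?_, ?_, mul_ne_zero hm0 hn0, ?_⟩
  · rw [mem_box3]
    refine ⟨?_, ?_, ?_⟩
    · show |((m : ℕ) : ℤ)| ≤ H
      rw [Int.abs_eq_natAbs, Int.natAbs_natCast]
      exact_mod_cast hmH
    · show |((n : ℕ) : ℤ)| ≤ H
      rw [Int.abs_eq_natAbs, Int.natAbs_natCast]
      exact_mod_cast hnH
    · show |(((K * p : ℕ) : ℕ) : ℤ)| ≤ ((H ^ 2 : ℕ) : ℤ)
      rw [Int.abs_eq_natAbs, Int.natAbs_natCast]
      exact_mod_cast hKp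
  · have : K * p ≠ 0 := mul_ne_zero hK0.ne' hpp.ne_zero
    exact_mod_cast this
  · refine solF_all hF (by exact_mod_cast hn1) ?_ ?_ ?_
    · have h1 : n ≡ 1 [MOD B0 F] := by
        unfold Nat.ModEq
        have hB : 2 ≤ B0 F := by
          by_contra hcon
          have hB01 : B0 F = 0 ∨ B0 F = 1 := by omega
          rcases hB01 with h | h
          · unfold B0 at h
            have hlc : F.leadingCoeff ≠ 0 := by
              rw [Ne, Polynomial.leadingCoeff_eq_zero]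
              rintro rfl
              simp at hF
            have : F.leadingCoeff.natAbs ≠ 0 := Int.natAbs_ne_zero.2 hlc
            have h2 := Nat.factorial_ne_zero (64 * F.natDegree ^ 2)
            simp_all
          · rw [h] at h8
            omega
        rw [h8, Nat.mod_eq_of_lt (by omega)]
      have h2 := (Nat.modEq_iff_dvd.1 h1.symm)
      push_cast at h2
      exact h2
    · intro q hq hqB hqk
      have h1 : q ∣ K * p := by exact_mod_cast hqk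
      rcases (Nat.Prime.dvd_mul hq).1 h1 with h2 | h2
      · rw [hK, hq.prime.dvd_finsetProd_iff] at h2
        obtain ⟨q', hq', h3⟩ := h2
        have h4 : q = q' := (Nat.prime_dvd_prime_iff_eq hq (hD q' hq').1).1 h3
        subst h4
        obtain ⟨h5, h6⟩ := hsq q hq'
        refine ⟨?_, by push_cast; exact h6⟩
        rw [← ZMod.intCast_zmod_eq_zero_iff_dvd]
        push_cast
        exact h5
      · have h4 : q = p := (Nat.prime_dvd_prime_iff_eq hq hpp).1 h2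
        subst h4
        exact ⟨hpn, by push_cast; exact hs⟩
    · rintro q hq - ⟨h1, h2⟩
      have h3 : q ∣ m := by exact_mod_cast h1
      have h4 : q ∣ n := by exact_mod_cast h2
      have h5 := Nat.dvd_gcd h3 h4
      rw [hcop] at h5
      exact hq.one_lt.ne' (Nat.dvd_one.1 h5)
  · intro h0
    have h1 : (p : ℤ) ∣ (m : ℤ) * n := by
      rw [h0]
      push_cast
      exact dvd_mul_left _ _
    rcases (Nat.prime_iff_prime_int.1 hpp).dvd_or_dvd h1 with h2 | h2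
    · exact hpm h2
    · exact hpn h2

open Classical in
/-- **Lower bound.** -/
theorem low4 {F : Polynomial ℤ} (hF : 1 ≤ F.natDegree) : ∃ c : ℝ, 0 < c ∧ ∃ H0 : ℕ, ∀ H : ℕ, H0 ≤ H →
    c * (H : ℝ) ^ 4 * Real.log H ^ (-(1 : ℝ) / 2) ≤
      (((box3 H).filter fun p => p.2.2 ≠ 0 ∧ ELSF F p.1 p.2.1 p.2.2 ∧ p.1 * p.2.1 ≠ 0 ∧
        p.1 * p.2.1 ≠ p.2.2).card : ℝ) := by
  obtain ⟨c1, hc1, H1, hPr⟩ := card_Pr
  obtain ⟨c2, hc2, hsums⟩ := Pool.Agent.Q91.EL.sums 1 one_pos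
  obtain ⟨C2, hC2, hM⟩ := mert
  obtain ⟨C3, hC3, hS⟩ := sum_sq_le
  obtain ⟨CE, hCE, hErr⟩ := err
  obtain ⟨B, hB⟩ : ∃ B, B = B0 F := ⟨_, rfl⟩
  have hB0 : B ≠ 0 := by
    rw [hB]
    unfold B0
    have hlc : F.leadingCoeff ≠ 0 := by
      rw [Ne, Polynomial.leadingCoeff_eq_zero]
      rintro rfl
      simp at hF
    have h1 : F.leadingCoeff.natAbs ≠ 0 := Int.natAbs_ne_zero.2 hlc
    have h2 := Nat.factorial_ne_zero (64 * F.natDegree ^ 2)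
    exact mul_ne_zero (by norm_num) (mul_ne_zero h2 h1)
  have hB8 : 8 ∣ B := by
    rw [hB]
    unfold B0
    exact dvd_mul_right _ _
  have hB2 : 2 ∣ B := (by norm_num : 2 ∣ 8).trans hB8
  have hB88 : 8 ≤ B := Nat.le_of_dvd (Nat.pos_of_ne_zero hB0) hB8
  have hBr : (8 : ℝ) ≤ B := by exact_mod_cast hB88
  obtain ⟨C4, hC4⟩ : ∃ C4 : ℝ, C4 = ∑ t ∈ B.primeFactors, (1 : ℝ) / t := ⟨_, rfl⟩
  obtain ⟨c3, hc3⟩ : ∃ c3 : ℝ, c3 = Real.exp (-(1 / 2 * (Real.log (Real.log 3) + C2 + C3 + C4 +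
    Real.log 16))) := ⟨_, rfl⟩
  have hc30 : 0 < c3 := by rw [hc3]; exact Real.exp_pos _
  obtain ⟨c0, hc0⟩ : ∃ c0, c0 = c1 / (8 * B) * c2 * c3 := ⟨_, rfl⟩
  have hc00 : 0 < c0 := by rw [hc0]; positivity
  have hev : ∀ᶠ x : ℝ in Filter.atTop, 20 * CE / c0 ≤ x ^ ((1 : ℝ) / 10) :=
    (tendsto_rpow_atTop (by norm_num : (0 : ℝ) < 1 / 10)).eventually_ge_atTop _
  obtain ⟨X0, hX0⟩ := Filter.eventually_atTop.1 hev
  obtain ⟨H2, hH2⟩ := exists_nat_ge X0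
  refine ⟨c0 / 2, by positivity, max (max H1 H2) ((16 * B) ^ 4), ?_⟩
  intro H hH
  have hH1 : H1 ≤ H := le_trans (le_max_left _ _) (le_trans (le_max_left _ _) hH)
  have hHH2 : H2 ≤ H := le_trans (le_max_right _ _) (le_trans (le_max_left _ _) hH)
  have hHB : (16 * B) ^ 4 ≤ H := le_trans (le_max_right _ _) hH
  have hH256 : 256 ≤ H := by
    refine le_trans ?_ hHB
    calc 256 ≤ (16 * 8) ^ 4 := by norm_num
      _ ≤ (16 * B) ^ 4 := Nat.pow_le_pow_left (Nat.mul_le_mul_left _ hB88) 4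
  obtain ⟨hQ4, hQH, hQL⟩ := Q_facts hH256
  obtain ⟨hL, hLL⟩ := logs (by omega : 16 ≤ H)
  have hQ128 : 16 * B ≤ QH H := by
    unfold QH
    rw [Nat.le_sqrt, Nat.le_sqrt]
    calc 16 * B * (16 * B) * (16 * B * (16 * B)) = (16 * B) ^ 4 := by ring
      _ ≤ H := hHB
  obtain ⟨Q, hQ⟩ : ∃ Q, Q = QH H := ⟨_, rfl⟩
  obtain ⟨L, hLdef⟩ : ∃ L, L = Real.log H := ⟨_, rfl⟩
  obtain ⟨s, hs⟩ : ∃ s, s = Real.sqrt H := ⟨_, rfl⟩
  rw [← hQ] at hQ4 hQH hQL hQ128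
  rw [← hLdef] at hQL hL hLL
  rw [← hLdef]
  have hHr : (256 : ℝ) ≤ H := by exact_mod_cast hH256
  have hL0 : 0 < L := by linarith
  have hss : s * s = H := by rw [hs]; exact Real.mul_self_sqrt (by linarith)
  have hs0 : 0 < s := by rw [hs]; exact Real.sqrt_pos.2 (by linarith)
  have hQr : (Q : ℝ) ^ 2 ≤ s := by
    rw [hs]
    refine Real.le_sqrt_of_sq_le ?_
    have : ((Q : ℝ) ^ 2) ^ 2 = (Q : ℝ) ^ 4 := by ring
    rw [this]
    exact_mod_cast hQH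
  have hQ128r : 16 * (B : ℝ) ≤ Q := by exact_mod_cast hQ128
  have hL2 : L ≤ 2 * s := by rw [hLdef, hs]; exact log_le_sqrt (by omega)
  -- the sets
  obtain ⟨P, hP⟩ : ∃ P, P = prs 2 Q B := ⟨_, rfl⟩
  have hPp : ∀ t ∈ P, t.Prime ∧ t ≠ 2 ∧ t ≤ Q ∧ ¬ t ∣ B := by
    intro t ht
    rw [hP] at ht
    obtain ⟨h1, h2, h3, h4⟩ := mem_prs.1 ht
    exact ⟨h2, by omega, h1, h4⟩
  obtain ⟨Ds, hDs⟩ : ∃ Ds, Ds = P.powerset.filter (fun D => ∏ t ∈ D, t ≤ Q) := ⟨_, rfl⟩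
  have hDm : ∀ D ∈ Ds, (∀ q ∈ D, q.Prime ∧ q ≠ 2 ∧ ¬ q ∣ B) ∧ (∀ q ∈ D, q ≤ Q) ∧
      ∏ t ∈ D, t ≤ Q := by
    intro D hD
    rw [hDs, mem_filter, mem_powerset] at hD
    exact ⟨fun q hq => ⟨(hPp q (hD.1 hq)).1, (hPp q (hD.1 hq)).2.1, (hPp q (hD.1 hq)).2.2.2⟩,
      fun q hq => (hPp q (hD.1 hq)).2.2.1, hD.2⟩
  obtain ⟨I, hI⟩ : ∃ I : Finset (Σ _ : Finset ℕ, ℕ × (ℕ × ℕ)), I =
    Ds.sigma fun D => (Pr H (H ^ 2 / ∏ q ∈ D, q) ×ˢ TpB B D H).filter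
      fun y => IsSquare ((y.2.2 : ℕ) : ZMod y.1) := ⟨_, rfl⟩
  obtain ⟨f, hf⟩ : ∃ f : (Σ _ : Finset ℕ, ℕ × (ℕ × ℕ)) → ℤ × ℤ × ℤ, ∀ x, f x =
    ((x.2.2.1 : ℤ), (x.2.2.2 : ℤ), (((∏ q ∈ x.1, q) * x.2.1 : ℕ) : ℤ)) := ⟨_, fun _ => rfl⟩
  have hcard : I.card ≤ ((box3 H).filter fun p => p.2.2 ≠ 0 ∧ ELSF F p.1 p.2.1 p.2.2 ∧
      p.1 * p.2.1 ≠ 0 ∧ p.1 * p.2.1 ≠ p.2.2).card := by
    refine card_le_card_of_injOn f ?_ ?_
    · rintro ⟨D, p, m, n⟩ hx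
      rw [mem_coe, hI, mem_sigma, mem_filter, mem_product] at hx
      simp only at hx
      obtain ⟨h1, ⟨h2, h3⟩, h5⟩ := hx
      have hDD := (hDm D h1).1
      rw [hB] at hDD h3
      have h4 := good_tripleF hF hDD h2 h3 h5
      rw [mem_coe, mem_filter, hf]
      exact ⟨h4.1, h4.2⟩
    · rintro ⟨D, p, m, n⟩ hx ⟨D', p', m', n'⟩ hx' h
      rw [mem_coe, hI, mem_sigma, mem_filter, mem_product] at hx hx'
      simp only at hx hx'
      obtain ⟨h1, ⟨h2, h3⟩, -⟩ := hx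
      obtain ⟨h1', ⟨h2', h3'⟩, -⟩ := hx'
      rw [hf, hf, Prod.mk.injEq, Prod.mk.injEq] at h
      simp only at h
      obtain ⟨e1, e2, e3⟩ := h
      have e3' : (∏ q ∈ D, q) * p = (∏ q ∈ D', q) * p' := by exact_mod_cast e3
      unfold Pr at h2 h2'
      rw [mem_filter] at h2 h2'
      have hQHlt : Q ≤ H := by
        have : Q ≤ Q ^ 4 := Nat.le_self_pow (by norm_num) Q
        omega
      have hnot : ¬ p ∣ ∏ q ∈ D', q := by
        intro hd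
        rw [h2.2.1.prime.dvd_finsetProd_iff] at hd
        obtain ⟨q, hq, hpq⟩ := hd
        have := (Nat.prime_dvd_prime_iff_eq h2.2.1 ((hDm D' h1').1 q hq).1).1 hpq
        have h5 := (hDm D' h1').2.1 q hq
        have h6 := h2.2.2.2
        omega
      have hpp' : p = p' := by
        have h5 : p ∣ (∏ q ∈ D', q) * p' := by rw [← e3']; exact dvd_mul_left _ _
        rcases (Nat.Prime.dvd_mul h2.2.1).1 h5 with h6 | h6
        · exact absurd h6 hnot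
        · exact (Nat.prime_dvd_prime_iff_eq h2.2.1 h2'.2.1).1 h6
      subst hpp'
      have hDD : D = D' := by
        have h5 : ∏ q ∈ D, q = ∏ q ∈ D', q := Nat.eq_of_mul_eq_mul_right h2.2.1.pos e3'
        rw [← Nat.primeFactors_prod (fun q hq => ((hDm D h1).1 q hq).1),
          ← Nat.primeFactors_prod (fun q hq => ((hDm D' h1').1 q hq).1), h5]
      subst hDD
      have hmm : m = m' := by exact_mod_cast e1
      subst hmm
      have hnn : n = n' := by exact_mod_cast e2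
      subst hnn
      rfl
  have hTm : ∀ D, ∀ x ∈ TpB B D H, x.1 ∈ Icc 1 H ∧ x.2 ∈ Icc 1 H := by
    intro D x hx
    unfold TpB at hx
    rw [mem_filter, mem_product] at hx
    exact hx.1
  have hIc : ∑ D ∈ Ds, (((Pr H (H ^ 2 / ∏ q ∈ D, q)).card : ℝ) * ((TpB B D H).card : ℝ) / 2 -
      CE * (H : ℝ) ^ ((18 : ℝ) / 5) / 2) ≤ ((I.card : ℕ) : ℝ) := by
    rw [hI, card_sigma]
    push_cast
    refine Finset.sum_le_sum fun D _ => ?_
    have h1 := half_card (H := H) (z := H ^ 2 / ∏ q ∈ D, q) (hTm D)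
    have h2 := hErr H (H ^ 2 / ∏ q ∈ D, q) (TpB B D H) (by omega) (Nat.div_le_self _ _) (hTm D)
    linarith
  have hDsc : (Ds.card : ℝ) ≤ Q := by
    have h1 : Ds.card ≤ (Icc 1 Q).card := by
      refine card_le_card_of_injOn (fun D => ∏ t ∈ D, t) ?_ ?_
      · intro D hD
        have h2 := hDm D hD
        rw [mem_coe, mem_Icc]
        exact ⟨Finset.prod_pos fun q hq => (h2.1 q hq).1.pos, h2.2.2⟩
      · intro D hD D' hD' h
        simp only at h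
        rw [← Nat.primeFactors_prod (fun q hq => ((hDm D hD).1 q hq).1),
          ← Nat.primeFactors_prod (fun q hq => ((hDm D' hD').1 q hq).1), h]
    rw [Nat.card_Icc, Nat.add_sub_cancel] at h1
    exact_mod_cast h1
  have hterm : ∀ D ∈ Ds, c1 / (8 * B) * (H : ℝ) ^ 4 / L * ∏ t ∈ D, eta t ≤
      ((Pr H (H ^ 2 / ∏ q ∈ D, q)).card : ℝ) * ((TpB B D H).card : ℝ) / 2 := by
    intro D hD
    obtain ⟨h1, h2, h3⟩ := hDm D hD
    obtain ⟨K, hK⟩ : ∃ K, K = ∏ q ∈ D, q := ⟨_, rfl⟩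
    have hK0 : 0 < K := by rw [hK]; exact Finset.prod_pos fun q hq => (h1 q hq).1.pos
    have hKQ : K ≤ Q := by rw [hK]; exact h3
    have hKr : (0 : ℝ) < K := by exact_mod_cast hK0
    have hKQr : (K : ℝ) ≤ Q := by exact_mod_cast hKQ
    have a1 := hPr H K hH1 hK0 (hQ ▸ hKQ)
    rw [← hLdef] at a1
    have a2 := card_TpB (by omega) hB2 h1 (H := H) (by omega) (by
      rw [← hK, ← hLdef]
      have b1 : 2 + L ≤ 4 * s := by
        have : 1 ≤ s := by nlinarith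
        linarith
      calc 4 * (B : ℝ) * (K : ℝ) * (2 + L) ≤ 4 * B * Q * (4 * s) :=
            mul_le_mul (mul_le_mul_of_nonneg_left hKQr (by positivity)) b1 (by linarith)
              (by positivity)
        _ = 16 * B * Q * s := by ring
        _ ≤ Q * Q * s := by
            refine mul_le_mul_of_nonneg_right ?_ hs0.le
            exact mul_le_mul_of_nonneg_right hQ128r (by linarith)
        _ = (Q : ℝ) ^ 2 * s := by ring
        _ ≤ s * s := mul_le_mul_of_nonneg_right hQr hs0.le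
        _ = H := hss)
    rw [← hK]
    have hpr0 : 0 ≤ ∏ q ∈ D, (((q : ℝ) - 1) / (2 * q)) := Finset.prod_nonneg fun q hq => by
      have : (2 : ℝ) ≤ q := by exact_mod_cast (h1 q hq).1.two_le
      exact div_nonneg (by linarith) (by linarith)
    have a3 := mul_le_mul a1 a2 (by positivity) (Nat.cast_nonneg _)
    have a4 : c1 * (H : ℝ) ^ 2 / (K * L) * ((H : ℝ) ^ 2 / (4 * B) *
        ∏ q ∈ D, (((q : ℝ) - 1) / (2 * q))) / 2 ≤
        ((Pr H (H ^ 2 / K)).card : ℝ) * ((TpB B D H).card : ℝ) / 2 := by linarith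
    refine le_trans (le_of_eq ?_) a4
    have e : ∏ t ∈ D, eta t = (∏ q ∈ D, (((q : ℝ) - 1) / (2 * q))) / K := by
      have e2 : (K : ℝ) = ∏ q ∈ D, (q : ℝ) := by
        rw [hK]
        push_cast
        rfl
      rw [e2, ← Finset.prod_div_distrib]
      refine Finset.prod_congr rfl fun q hq => ?_
      unfold eta
      rw [div_div]
      congr 1
      ring
    rw [e]
    generalize ∏ q ∈ D, (((q : ℝ) - 1) / (2 * q)) = W
    have hB' : (B : ℝ) ≠ 0 := by positivity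
    field_simp
    ring
  have hsum : c1 / (8 * B) * (H : ℝ) ^ 4 / L * ∑ D ∈ Ds, ∏ t ∈ D, eta t -
      Q * (CE * (H : ℝ) ^ ((18 : ℝ) / 5) / 2) ≤ ((I.card : ℕ) : ℝ) := by
    refine le_trans ?_ hIc
    rw [Finset.sum_sub_distrib, Finset.mul_sum, Finset.sum_const, nsmul_eq_mul]
    have b1 := Finset.sum_le_sum hterm
    have b2 : (Ds.card : ℝ) * (CE * (H : ℝ) ^ ((18 : ℝ) / 5) / 2) ≤
        Q * (CE * (H : ℝ) ^ ((18 : ℝ) / 5) / 2) := mul_le_mul_of_nonneg_right hDsc (by positivity)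
    linarith
  have h5 := hsums Q P eta (by omega) (fun t ht => (hPp t ht).1) (fun t ht => (hPp t ht).2.2.1)
    (fun t ht => by
      have := eta_pos (hPp t ht).1
      exact ⟨this.1.le, this.2⟩)
  have h6 : c3 * L ^ ((1 : ℝ) / 2) ≤ Real.exp (∑ t ∈ P, eta t) := by
    have b1 := hM 2 Q B le_rfl (by omega) hB0
    rw [← hC4, ← hP] at b1
    have b2 := hS P
    have b3 : ∑ t ∈ P, eta t = 1 / 2 * ∑ t ∈ P, (1 : ℝ) / t -
        1 / 2 * ∑ t ∈ P, (1 : ℝ) / (t : ℝ) ^ 2 := by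
      rw [Finset.mul_sum, Finset.mul_sum, ← Finset.sum_sub_distrib]
      exact Finset.sum_congr rfl fun t ht => eta_eq (hPp t ht).1
    have b4 : Real.log L - Real.log 16 ≤ Real.log (Real.log Q) := by
      rw [← Real.log_div (by linarith) (by norm_num)]
      exact Real.log_le_log (by linarith) (by linarith)
    have b5 : ((2 + 1 : ℕ) : ℝ) = 3 := by norm_num
    rw [b5] at b1
    rw [hc3, Real.rpow_def_of_pos hL0, ← Real.exp_add]
    refine Real.exp_le_exp.2 ?_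
    rw [b3]
    linarith
  rw [← hDs] at h5
  have h7 : c0 * (H : ℝ) ^ 4 * L ^ (-(1 : ℝ) / 2) ≤
      c1 / (8 * B) * (H : ℝ) ^ 4 / L * ∑ D ∈ Ds, ∏ t ∈ D, eta t := by
    have b1 : c2 * (c3 * L ^ ((1 : ℝ) / 2)) ≤ ∑ D ∈ Ds, ∏ t ∈ D, eta t :=
      le_trans (mul_le_mul_of_nonneg_left h6 hc2.le) h5
    have b2 := mul_le_mul_of_nonneg_left b1 (by positivity : 0 ≤ c1 / (8 * B) * (H : ℝ) ^ 4 / L)
    refine le_trans (le_of_eq ?_) b2
    have b3 : L ^ ((1 : ℝ) / 2) = L * L ^ (-(1 : ℝ) / 2) := by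
      have : L * L ^ (-(1 : ℝ) / 2) = L ^ (1 : ℝ) * L ^ (-(1 : ℝ) / 2) := by rw [Real.rpow_one]
      rw [this, ← Real.rpow_add hL0]
      norm_num
    rw [b3, hc0]
    field_simp
  -- the error term
  have h9 : (Q : ℝ) * (CE * (H : ℝ) ^ ((18 : ℝ) / 5) / 2) ≤
      c0 / 2 * (H : ℝ) ^ 4 * L ^ (-(1 : ℝ) / 2) := by
    have hH0 : (0 : ℝ) < H := by linarith
    have hH1r : (1 : ℝ) ≤ H := by linarith
    have b1 : (Q : ℝ) ≤ (H : ℝ) ^ ((1 : ℝ) / 4) := by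
      have : ((Q : ℝ) ^ (4 : ℝ)) ≤ H := by
        rw [show (4 : ℝ) = ((4 : ℕ) : ℝ) by norm_num, Real.rpow_natCast]
        exact_mod_cast hQH
      have h1 := Real.rpow_le_rpow (by positivity) this (by norm_num : (0 : ℝ) ≤ 1 / 4)
      rw [← Real.rpow_mul (Nat.cast_nonneg _)] at h1
      norm_num at h1
      exact_mod_cast h1
    have b2 : L ≤ 20 * (H : ℝ) ^ ((1 : ℝ) / 20) := by
      have h1 := Real.log_le_rpow_div (x := (H : ℝ)) (ε := 1 / 20) (by linarith) (by norm_num)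
      have h3 : (H : ℝ) ^ ((1 : ℝ) / 20) / (1 / 20) = 20 * (H : ℝ) ^ ((1 : ℝ) / 20) := by ring
      rw [hLdef]
      linarith
    have hL1 : 1 ≤ L := by linarith
    have b3 : 1 ≤ L * L ^ (-(1 : ℝ) / 2) := by
      have : L * L ^ (-(1 : ℝ) / 2) = L ^ (1 : ℝ) * L ^ (-(1 : ℝ) / 2) := by rw [Real.rpow_one]
      rw [this, ← Real.rpow_add hL0]
      exact Real.one_le_rpow hL1 (by norm_num)
    have b4 := hX0 H (le_trans hH2 (by exact_mod_cast hHH2))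
    have b5 : 20 * CE ≤ c0 * (H : ℝ) ^ ((1 : ℝ) / 10) := by
      rw [div_le_iff₀ hc00] at b4
      linarith
    have hLn0 : 0 ≤ L ^ (-(1 : ℝ) / 2) := Real.rpow_nonneg hL0.le _
    calc (Q : ℝ) * (CE * (H : ℝ) ^ ((18 : ℝ) / 5) / 2)
        ≤ (H : ℝ) ^ ((1 : ℝ) / 4) * (CE * (H : ℝ) ^ ((18 : ℝ) / 5) / 2) :=
          mul_le_mul_of_nonneg_right b1 (by positivity)
      _ ≤ (H : ℝ) ^ ((1 : ℝ) / 4) * (CE * (H : ℝ) ^ ((18 : ℝ) / 5) / 2) *
          (L * L ^ (-(1 : ℝ) / 2)) := le_mul_of_one_le_right (by positivity) b3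
      _ = (H : ℝ) ^ ((1 : ℝ) / 4) * (CE * (H : ℝ) ^ ((18 : ℝ) / 5) / 2) *
          L ^ (-(1 : ℝ) / 2) * L := by ring
      _ ≤ (H : ℝ) ^ ((1 : ℝ) / 4) * (CE * (H : ℝ) ^ ((18 : ℝ) / 5) / 2) *
          L ^ (-(1 : ℝ) / 2) * (20 * (H : ℝ) ^ ((1 : ℝ) / 20)) :=
          mul_le_mul_of_nonneg_left b2 (by positivity)
      _ = (20 * CE) / 2 * ((H : ℝ) ^ ((1 : ℝ) / 4) * (H : ℝ) ^ ((18 : ℝ) / 5) *
          (H : ℝ) ^ ((1 : ℝ) / 20)) * L ^ (-(1 : ℝ) / 2) := by ring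
      _ ≤ (c0 * (H : ℝ) ^ ((1 : ℝ) / 10)) / 2 * ((H : ℝ) ^ ((1 : ℝ) / 4) *
          (H : ℝ) ^ ((18 : ℝ) / 5) * (H : ℝ) ^ ((1 : ℝ) / 20)) * L ^ (-(1 : ℝ) / 2) := by
          gcongr
      _ = c0 / 2 * ((H : ℝ) ^ ((1 : ℝ) / 10) * (H : ℝ) ^ ((1 : ℝ) / 4) *
          (H : ℝ) ^ ((18 : ℝ) / 5) * (H : ℝ) ^ ((1 : ℝ) / 20)) * L ^ (-(1 : ℝ) / 2) := by ring
      _ = c0 / 2 * (H : ℝ) ^ 4 * L ^ (-(1 : ℝ) / 2) := by
          rw [← Real.rpow_add hH0, ← Real.rpow_add hH0, ← Real.rpow_add hH0]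
          norm_num
  have h8 : ((I.card : ℕ) : ℝ) ≤ (((box3 H).filter fun p => p.2.2 ≠ 0 ∧ ELSF F p.1 p.2.1 p.2.2 ∧
      p.1 * p.2.1 ≠ 0 ∧ p.1 * p.2.1 ≠ p.2.2).card : ℝ) := by exact_mod_cast hcard
  linarith

end Pool.Agent.H14Q
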