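import Pool.Agent.H14Q.Up3
import Mathlib

/-!
# For most parameters the polynomial `(F² - m)(n (F² - m) + k)` is squarefree
-/

set_option autoImplicit false

namespace Pool.Agent.H14Q

open Polynomial

/-- the squares of the critical values -/
noncomputable def crit (F : ℤ[X]) : Finset ℂ :=
  ((derivative (F.map (Int.castRingHom ℂ))).roots.toFinset).image
    fun α => ((F.map (Int.castRingHom ℂ)).eval α) ^ 2

theorem cop_sq {G : ℚ[X]} {t : ℚ} (ht : t ≠ 0) (h : IsCoprime (G ^ 2 - C t) (derivative G)) :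
    Squarefree (G ^ 2 - C t) := by
  have hsep : (G ^ 2 - C t).Separable := by
    unfold Polynomial.Separable
    have hd : derivative (G ^ 2 - C t) = C 2 * G * derivative G := by
      rw [derivative_sub, derivative_C, derivative_pow]
      simp
    rw [hd]
    refine IsCoprime.mul_right (IsCoprime.mul_right ?_ ?_) h
    · exact ⟨0, C (1 / 2), by rw [zero_mul, zero_add, ← C_mul]; norm_num⟩
    · refine ⟨C (-1 / t), C (1 / t) * G, ?_⟩
      have e : (C (1 / t) : ℚ[X]) * C t = 1 := by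
        rw [← C_mul, one_div, inv_mul_cancel₀ ht, C_1]
      have e1 : (C (-1 / t) : ℚ[X]) = -C (1 / t) := by
        rw [← C_neg]
        congr 1
        ring
      rw [e1]
      linear_combination e
  exact hsep.squarefree

theorem cop_of {F : ℤ[X]} (hF : 1 ≤ F.natDegree) {t : ℚ} (ht : (t : ℂ) ∉ crit F) :
    IsCoprime ((F.map (Int.castRingHom ℚ)) ^ 2 - C t) (derivative (F.map (Int.castRingHom ℚ))) := by
  refine (Polynomial.isCoprime_iff_aeval_ne_zero_of_isAlgClosed (k := ℚ) ℂ _ _).2 ?_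
  intro α
  by_contra hcon
  push Not at hcon
  obtain ⟨h1, h2⟩ := hcon
  apply ht
  unfold crit
  rw [Finset.mem_image]
  have hmap : (F.map (Int.castRingHom ℂ)) = (F.map (Int.castRingHom ℚ)).map (algebraMap ℚ ℂ) := by
    rw [Polynomial.map_map]
    congr 1
  refine ⟨α, ?_, ?_⟩
  · rw [Multiset.mem_toFinset, mem_roots]
    · rw [IsRoot, hmap, derivative_map, eval_map_algebraMap]
      exact h2
    · intro h0
      have h3 := Polynomial.derivative_eq_zero.1 h0
      rw [natDegree_map_eq_of_injective (RingHom.injective_int _)] at h3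
      omega
  · rw [hmap, eval_map_algebraMap]
    simp only [map_sub, map_pow, aeval_C] at h1
    have h3 : (algebraMap ℚ ℂ) t = (t : ℂ) := rfl
    rw [h3] at h1
    linear_combination h1

/-- the polynomial -/
noncomputable def fpol (F : ℤ[X]) (m n k : ℤ) : ℚ[X] :=
  ((F.map (Int.castRingHom ℚ)) ^ 2 - C (m : ℚ)) *
    (C (n : ℚ) * ((F.map (Int.castRingHom ℚ)) ^ 2 - C (m : ℚ)) + C (k : ℚ))

theorem fpol_sqf {F : ℤ[X]} (hF : 1 ≤ F.natDegree) {m n k : ℤ} (hk : k ≠ 0) (hmn : m * n ≠ 0)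
    (hmk : m * n ≠ k) (h1 : (m : ℂ) ∉ crit F) (h2 : ∀ t ∈ crit F, (k : ℂ) ≠ n * (m - t)) :
    Squarefree (fpol F m n k) := by
  obtain ⟨hm, hn⟩ := mul_ne_zero_iff.1 hmn
  have hnq : (n : ℚ) ≠ 0 := by exact_mod_cast hn
  have hmq : (m : ℚ) ≠ 0 := by exact_mod_cast hm
  have hkq : (k : ℚ) ≠ 0 := by exact_mod_cast hk
  obtain ⟨t, ht⟩ : ∃ t : ℚ, t = m - k / n := ⟨_, rfl⟩
  have htn : (n : ℚ) * t = m * n - k := by
    rw [ht]
    field_simp
  have ht0 : t ≠ 0 := by
    intro h0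
    rw [h0, mul_zero] at htn
    apply hmk
    have : (m : ℚ) * n = k := by linear_combination -htn
    exact_mod_cast this
  have htc : (t : ℂ) ∉ crit F := by
    intro hcon
    refine h2 _ hcon ?_
    have h3 : ((n : ℚ) * t : ℂ) = ((m * n - k : ℚ) : ℂ) := by
      rw [← htn]
      push_cast
      ring
    push_cast at h3
    linear_combination h3
  obtain ⟨G, hG⟩ : ∃ G, G = F.map (Int.castRingHom ℚ) := ⟨_, rfl⟩
  have s1 : Squarefree (G ^ 2 - C (m : ℚ)) := by
    refine cop_sq hmq ?_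
    rw [hG]
    exact cop_of hF (by simpa using h1)
  have s2 : Squarefree (G ^ 2 - C t) := by
    refine cop_sq ht0 ?_
    rw [hG]
    exact cop_of hF htc
  have hU : IsUnit (C (n : ℚ) : ℚ[X]) := isUnit_C.2 (isUnit_iff_ne_zero.2 hnq)
  have e : C (n : ℚ) * (G ^ 2 - C (m : ℚ)) + C (k : ℚ) = C (n : ℚ) * (G ^ 2 - C t) := by
    have : (C (n : ℚ) : ℚ[X]) * C t = C (m : ℚ) * C (n : ℚ) - C (k : ℚ) := by
      rw [← C_mul, htn, C_sub, C_mul]
    linear_combination this
  unfold fpol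
  rw [← hG, e]
  have hsub : IsCoprime (G ^ 2 - C (m : ℚ)) (C (n : ℚ) * (G ^ 2 - C t)) := by
    refine ⟨C (-n / k), C (1 / k), ?_⟩
    have e1 : (C (-n / k : ℚ) : ℚ[X]) = - (C (n : ℚ) * C (1 / k : ℚ)) := by
      rw [← C_mul, ← C_neg]
      congr 1
      field_simp
    have e2 : (C (1 / k : ℚ) : ℚ[X]) * C (k : ℚ) = 1 := by
      rw [← C_mul, one_div, inv_mul_cancel₀ hkq, C_1]
    rw [← e, e1]
    linear_combination e2
  rw [squarefree_mul_iff]
  refine ⟨hsub.isRelPrime, s1, ?_⟩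
  refine (squarefree_mul_iff.2 ⟨?_, hU.squarefree, s2⟩)
  exact hU.isRelPrime_left

open Classical in
/-- the number of the exceptions -/
theorem card_badF (F : ℤ[X]) {H : ℕ} (hH : 1 ≤ H) :
    (((box3 H).filter fun p => (p.1 : ℂ) ∈ crit F ∨
      ∃ t ∈ crit F, (p.2.2 : ℂ) = p.2.1 * (p.1 - t)).card : ℝ) ≤ 18 * (crit F).card * (H : ℝ) ^ 3 := by
  have hsub : (box3 H).filter (fun p => (p.1 : ℂ) ∈ crit F ∨
      ∃ t ∈ crit F, (p.2.2 : ℂ) = p.2.1 * (p.1 - t)) ⊆
      (crit F).biUnion (fun t => (box3 H).filter fun p => (p.1 : ℂ) = t) ∪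
      (crit F).biUnion (fun t => (box3 H).filter fun p => (p.2.2 : ℂ) = p.2.1 * (p.1 - t)) := by
    intro p hp
    rw [Finset.mem_filter] at hp
    rw [Finset.mem_union, Finset.mem_biUnion, Finset.mem_biUnion]
    rcases hp.2 with h | ⟨t, ht, h⟩
    · exact Or.inl ⟨_, h, Finset.mem_filter.2 ⟨hp.1, rfl⟩⟩
    · exact Or.inr ⟨t, ht, Finset.mem_filter.2 ⟨hp.1, h⟩⟩
  have hI1 : (Finset.Icc (-(H : ℤ)) H).card = 2 * H + 1 := by
    rw [Int.card_Icc]
    omega
  have hI2 : (Finset.Icc (-((H ^ 2 : ℕ) : ℤ)) ((H ^ 2 : ℕ) : ℤ)).card = 2 * H ^ 2 + 1 := by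
    rw [Int.card_Icc]
    omega
  have h1 : ∀ t ∈ crit F, ((box3 H).filter fun p => (p.1 : ℂ) = t).card ≤
      (2 * H + 1) * (2 * H ^ 2 + 1) := by
    intro t _
    rw [← hI1, ← hI2, ← Finset.card_product]
    refine Finset.card_le_card_of_injOn (fun p => p.2) ?_ ?_
    · intro p hp
      rw [Finset.mem_coe, Finset.mem_filter] at hp
      unfold box3 at hp
      exact (Finset.mem_product.1 hp.1).2
    · intro p hp q hq h
      rw [Finset.mem_coe, Finset.mem_filter] at hp hq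
      have : (p.1 : ℂ) = q.1 := hp.2.trans hq.2.symm
      exact Prod.ext (by exact_mod_cast this) h
  have h2 : ∀ t ∈ crit F, ((box3 H).filter fun p => (p.2.2 : ℂ) = p.2.1 * (p.1 - t)).card ≤
      (2 * H + 1) * (2 * H + 1) := by
    intro t _
    rw [← hI1, ← Finset.card_product]
    refine Finset.card_le_card_of_injOn (fun p => (p.1, p.2.1)) ?_ ?_
    · intro p hp
      rw [Finset.mem_coe, Finset.mem_filter] at hp
      unfold box3 at hp
      have h3 := Finset.mem_product.1 hp.1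
      exact Finset.mem_product.2 ⟨h3.1, (Finset.mem_product.1 h3.2).1⟩
    · intro p hp q hq h
      rw [Finset.mem_coe, Finset.mem_filter] at hp hq
      simp only [Prod.mk.injEq] at h
      have h3 : (p.2.2 : ℂ) = q.2.2 := by rw [hp.2, hq.2, h.1, h.2]
      exact Prod.ext h.1 (Prod.ext h.2 (by exact_mod_cast h3))
  have h3 := (Finset.card_le_card hsub).trans (Finset.card_union_le _ _)
  have h4 := Finset.card_biUnion_le (s := crit F)
    (t := fun t => (box3 H).filter fun p => (p.1 : ℂ) = t)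
  have h5 := Finset.card_biUnion_le (s := crit F)
    (t := fun t => (box3 H).filter fun p => (p.2.2 : ℂ) = p.2.1 * (p.1 - t))
  have h6 := Finset.sum_le_card_nsmul _ _ _ h1
  have h7 := Finset.sum_le_card_nsmul _ _ _ h2
  rw [smul_eq_mul] at h6 h7
  have h8 : ((box3 H).filter fun p => (p.1 : ℂ) ∈ crit F ∨
      ∃ t ∈ crit F, (p.2.2 : ℂ) = p.2.1 * (p.1 - t)).card ≤
      (crit F).card * ((2 * H + 1) * (2 * H ^ 2 + 1)) + (crit F).card * ((2 * H + 1) * (2 * H + 1)) := by
    omega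
  have h9 : ((crit F).card * ((2 * H + 1) * (2 * H ^ 2 + 1)) +
      (crit F).card * ((2 * H + 1) * (2 * H + 1))) ≤ 18 * (crit F).card * H ^ 3 := by
    have a1 : (2 * H + 1) * (2 * H ^ 2 + 1) ≤ 3 * H * (3 * H ^ 2) := by
      apply Nat.mul_le_mul
      · omega
      · nlinarith
    have a2 : (2 * H + 1) * (2 * H + 1) ≤ 3 * H * (3 * H ^ 2) := by
      apply Nat.mul_le_mul
      · omega
      · nlinarith
    calc _ ≤ (crit F).card * (3 * H * (3 * H ^ 2)) + (crit F).card * (3 * H * (3 * H ^ 2)) :=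
          Nat.add_le_add (Nat.mul_le_mul_left _ a1) (Nat.mul_le_mul_left _ a2)
      _ = _ := by ring
  have h10 := h8.trans h9
  exact_mod_cast h10

end Pool.Agent.H14Q
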