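import Pool.Agent.H14Q2.Rat
import Pool.Agent.H14Q2.Sqf
import Pool.Agent.H14Q2.Low4

/-!
# The counts in the coordinates `(a, b, c)`
-/

set_option autoImplicit false

namespace Pool.Agent.H14Q

open Finset Pool.Agent.W313.BMX

/-- the exceptional set -/
def Ex : Set (ℤ × ℤ × ℤ) := {p | ¬ Cert (-p.1) p.2.1 (p.2.2 - p.1 * p.2.1)}

open Classical in
theorem up_box : ∃ C : ℝ, 0 < C ∧ ∀ H : ℕ, 256 ≤ H →
    (((box3 H).filter fun p => p ∈ Ex).card : ℝ) ≤
      C * (H : ℝ) ^ 4 * Real.log H ^ (-(4 : ℝ) / 5) := by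
  obtain ⟨C, hC, hup⟩ := up3
  refine ⟨16 * C + 9, by positivity, ?_⟩
  intro H hH
  have hHr : (256 : ℝ) ≤ H := by exact_mod_cast hH
  have hsub : ((box3 H).filter fun p => p ∈ Ex).card ≤
      ((box3 (2 * H)).filter fun p => p.2.2 ≠ 0 ∧ ¬ Cert p.1 p.2.1 p.2.2).card +
      ((2 * H + 1) * (2 * H + 1)) := by
    have h1 : ((box3 H).filter fun p => p ∈ Ex) ⊆
        ((box3 H).filter fun p => p.2.2 - p.1 * p.2.1 ≠ 0 ∧
          ¬ Cert (-p.1) p.2.1 (p.2.2 - p.1 * p.2.1)) ∪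
        ((box3 H).filter fun p => p.2.2 = p.1 * p.2.1) := by
      intro p hp
      rw [mem_filter] at hp
      rw [mem_union, mem_filter, mem_filter]
      by_cases h : p.2.2 = p.1 * p.2.1
      · exact Or.inr ⟨hp.1, h⟩
      · exact Or.inl ⟨hp.1, sub_ne_zero.2 h, hp.2⟩
    refine (card_le_card h1).trans ((card_union_le _ _).trans (Nat.add_le_add ?_ ?_))
    · refine card_le_card_of_injOn (fun p => (-p.1, p.2.1, p.2.2 - p.1 * p.2.1)) ?_ ?_
      · intro p hp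
        rw [mem_coe, mem_filter, mem_box3] at hp
        obtain ⟨⟨h2, h3, h4⟩, h5, h6⟩ := hp
        rw [mem_coe, mem_filter, mem_box3]
        refine ⟨⟨?_, ?_, ?_⟩, h5, h6⟩
        · show |-p.1| ≤ ((2 * H : ℕ) : ℤ)
          rw [abs_neg]
          push_cast
          linarith [abs_nonneg p.1]
        · show |p.2.1| ≤ ((2 * H : ℕ) : ℤ)
          push_cast
          linarith [abs_nonneg p.2.1]
        · show |p.2.2 - p.1 * p.2.1| ≤ (((2 * H) ^ 2 : ℕ) : ℤ)
          have h7 : |p.1 * p.2.1| ≤ (H : ℤ) * H := by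
            rw [abs_mul]
            exact mul_le_mul h2 h3 (abs_nonneg _) (by positivity)
          have h8 := abs_sub p.2.2 (p.1 * p.2.1)
          push_cast at h4 ⊢
          nlinarith
      · intro p hp q hq h
        simp only [Prod.mk.injEq, neg_inj] at h
        obtain ⟨h2, h3, h4⟩ := h
        refine Prod.ext h2 (Prod.ext h3 ?_)
        rw [h2, h3] at h4
        linarith
    · have hI1 : (Finset.Icc (-(H : ℤ)) H).card = 2 * H + 1 := by
        rw [Int.card_Icc]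
        omega
      rw [← hI1, ← Finset.card_product]
      refine Finset.card_le_card_of_injOn (fun p => (p.1, p.2.1)) ?_ ?_
      · intro p hp
        rw [Finset.mem_coe, Finset.mem_filter] at hp
        unfold box3 at hp
        have h3 := Finset.mem_product.1 hp.1
        exact Finset.mem_product.2 ⟨h3.1, (Finset.mem_product.1 h3.2).1⟩
      · intro p hp q hq h
        rw [Finset.mem_coe, Finset.mem_filter] at hp hq
        simp only [Prod.mk.injEq] at h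
        exact Prod.ext h.1 (Prod.ext h.2 (by rw [hp.2, hq.2, h.1, h.2]))
  have h2 := hup (2 * H) (by omega)
  have hL1 : 1 < Real.log H := by
    have := (logs (by omega : 16 ≤ H)).1
    linarith
  have hL0 : 0 < Real.log H := by linarith
  have h3 : Real.log ((2 * H : ℕ) : ℝ) ^ (-(4 : ℝ) / 5) ≤ Real.log H ^ (-(4 : ℝ) / 5) := by
    refine Real.rpow_le_rpow_of_nonpos hL0 ?_ (by norm_num)
    refine Real.log_le_log (by linarith) ?_
    push_cast
    linarith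
  have h4 : ((((box3 (2 * H)).filter fun p => p.2.2 ≠ 0 ∧ ¬ Cert p.1 p.2.1 p.2.2).card : ℕ) : ℝ) ≤
      16 * C * (H : ℝ) ^ 4 * Real.log H ^ (-(4 : ℝ) / 5) := by
    refine h2.trans ?_
    have : C * (((2 * H : ℕ) : ℕ) : ℝ) ^ 4 = 16 * C * (H : ℝ) ^ 4 := by
      push_cast
      ring
    rw [this]
    exact mul_le_mul_of_nonneg_left h3 (by positivity)
  have h5 : (((2 * H + 1) * (2 * H + 1) : ℕ) : ℝ) ≤ 9 * (H : ℝ) ^ 4 * Real.log H ^ (-(4 : ℝ) / 5) := by
    have a1 : Real.log H ≤ H := (Real.log_le_sub_one_of_pos (by linarith)).trans (by linarith)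
    have a2 : (H : ℝ)⁻¹ ≤ Real.log H ^ (-(4 : ℝ) / 5) := by
      have b1 : Real.log H ^ (-(1 : ℝ)) ≤ Real.log H ^ (-(4 : ℝ) / 5) :=
        Real.rpow_le_rpow_of_exponent_le hL1.le (by norm_num)
      rw [Real.rpow_neg_one] at b1
      exact (inv_anti₀ hL0 a1).trans b1
    calc (((2 * H + 1) * (2 * H + 1) : ℕ) : ℝ) ≤ 9 * (H : ℝ) ^ 2 := by
          push_cast
          nlinarith
      _ ≤ 9 * (H : ℝ) ^ 3 := by nlinarith [pow_pos (by linarith : (0 : ℝ) < H) 2]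
      _ = 9 * (H : ℝ) ^ 4 * (H : ℝ)⁻¹ := by
          field_simp
      _ ≤ _ := mul_le_mul_of_nonneg_left a2 (by positivity)
  have h6 : ((((box3 H).filter fun p => p ∈ Ex).card : ℕ) : ℝ) ≤
      ((((box3 (2 * H)).filter fun p => p.2.2 ≠ 0 ∧ ¬ Cert p.1 p.2.1 p.2.2).card : ℕ) : ℝ) +
      (((2 * H + 1) * (2 * H + 1) : ℕ) : ℝ) := by
    exact_mod_cast hsub
  calc _ ≤ _ := h6
    _ ≤ 16 * C * (H : ℝ) ^ 4 * Real.log H ^ (-(4 : ℝ) / 5) +
        9 * (H : ℝ) ^ 4 * Real.log H ^ (-(4 : ℝ) / 5) := add_le_add h4 h5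
    _ = _ := by ring

/-- smooth and everywhere locally soluble -/
def GoodC (F : Polynomial ℤ) (p : ℤ × ℤ × ℤ) : Prop :=
  p.2.1 ≠ 0 ∧ Squarefree (((F ^ 2 + Polynomial.C p.1) *
    (Polynomial.C p.2.1 * F ^ 2 + Polynomial.C p.2.2)).map (Int.castRingHom ℚ)) ∧
    Nonempty (AdelicPoint (fac F p.1 p.2.1 p.2.2) 1)

theorem goodC_of {F : Polynomial ℤ} (hF : 1 ≤ F.natDegree) {m n k : ℤ} (hk : k ≠ 0)
    (hmn : m * n ≠ 0) (hmk : m * n ≠ k) (hE : ELSF F m n k) (h1 : (m : ℂ) ∉ crit F)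
    (h2 : ∀ t ∈ crit F, (k : ℂ) ≠ n * (m - t)) : GoodC F (-m, n, k - m * n) := by
  have hn : n ≠ 0 := (mul_ne_zero_iff.1 hmn).2
  refine ⟨hn, ?_, ?_⟩
  · have h := fpol_sqf hF hk hmn hmk h1 h2
    have e : fpol F m n k = ((F ^ 2 + Polynomial.C (-m)) *
        (Polynomial.C n * F ^ 2 + Polynomial.C (k - m * n))).map (Int.castRingHom ℚ) := by
      unfold fpol
      rw [Polynomial.map_mul, Polynomial.map_add, Polynomial.map_add, Polynomial.map_mul,
        Polynomial.map_pow, Polynomial.map_C, Polynomial.map_C, Polynomial.map_C]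
      simp only [eq_intCast, Int.cast_neg, Int.cast_sub, Int.cast_mul, Polynomial.C_sub,
        Polynomial.C_mul, Polynomial.C_neg]
      ring
    rw [e] at h
    exact h
  · have e : k - m * n - (-m) * n = k := by ring
    have hR := point_of hF (a := -m) (b := n) (c := k - m * n) hn (K := ℝ) (by
      rw [neg_neg, e]
      exact hE.1)
    have hQ : ∀ p : Nat.Primes, Nonempty (Point (fac F (-m) n (k - m * n)) 1 ℚ_[(p : ℕ)]) := by
      intro p
      refine point_of hF (a := -m) (b := n) (c := k - m * n) hn ?_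
      rw [neg_neg, e]
      exact hE.2 p
    exact ⟨⟨hR.some, fun p => (hQ p).some⟩⟩

open Classical in
theorem low_box {F : Polynomial ℤ} (hF : 1 ≤ F.natDegree) : ∃ c : ℝ, 0 < c ∧ ∃ H0 : ℕ,
    ∀ H : ℕ, H0 ≤ H → c * (H : ℝ) ^ 4 * Real.log H ^ (-(1 : ℝ) / 2) ≤
      (((box3 H).filter fun p => GoodC F p).card : ℝ) := by
  obtain ⟨c, hc, H1, hlow⟩ := low4 hF
  obtain ⟨B, hB⟩ : ∃ B : ℝ, B = 18 * (crit F).card := ⟨_, rfl⟩
  have hB0 : 0 ≤ B := by rw [hB]; positivity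
  obtain ⟨N, hN⟩ := exists_nat_ge ((40 * B / c) ^ 2)
  refine ⟨c / 512, by positivity, 2 * (max (max H1 256) N) + 2, ?_⟩
  intro H hH
  obtain ⟨h, hh⟩ : ∃ h, h = H / 2 := ⟨_, rfl⟩
  have hhm : max (max H1 256) N ≤ h := by omega
  have hh1 : H1 ≤ h := (le_max_left _ _).trans ((le_max_left _ _).trans hhm)
  have hh256 : 256 ≤ h := (le_max_right _ _).trans ((le_max_left _ _).trans hhm)
  have hhN : N ≤ h := (le_max_right _ _).trans hhm
  have hhr : (256 : ℝ) ≤ h := by exact_mod_cast hh256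
  have hHh : (H : ℝ) ≤ 4 * h := by
    have : H ≤ 4 * h := by omega
    exact_mod_cast this
  have hhH : h ≤ H := by omega
  have a1 := hlow h hh1
  have a2 := card_badF F (H := h) (by omega)
  rw [← hB] at a2
  have hL1 : 1 < Real.log h := by
    have := (logs (by omega : 16 ≤ h)).1
    linarith
  have hLh : Real.log h ≤ Real.log H := Real.log_le_log (by linarith) (by exact_mod_cast hhH)
  -- the map
  have hmap : ((box3 h).filter fun p => p.2.2 ≠ 0 ∧ ELSF F p.1 p.2.1 p.2.2 ∧ p.1 * p.2.1 ≠ 0 ∧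
      p.1 * p.2.1 ≠ p.2.2).card ≤ ((box3 H).filter fun p => GoodC F p).card +
      ((box3 h).filter fun p => (p.1 : ℂ) ∈ crit F ∨
        ∃ t ∈ crit F, (p.2.2 : ℂ) = p.2.1 * (p.1 - t)).card := by
    have h1 : ((box3 h).filter fun p => p.2.2 ≠ 0 ∧ ELSF F p.1 p.2.1 p.2.2 ∧ p.1 * p.2.1 ≠ 0 ∧
        p.1 * p.2.1 ≠ p.2.2) ⊆
        ((box3 h).filter fun p => GoodC F (-p.1, p.2.1, p.2.2 - p.1 * p.2.1)) ∪
        ((box3 h).filter fun p => (p.1 : ℂ) ∈ crit F ∨
        ∃ t ∈ crit F, (p.2.2 : ℂ) = p.2.1 * (p.1 - t)) := by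
      intro p hp
      rw [mem_filter] at hp
      obtain ⟨hp0, hp1, hp2, hp3, hp4⟩ := hp
      rw [mem_union, mem_filter, mem_filter]
      by_cases h2 : (p.1 : ℂ) ∈ crit F ∨ ∃ t ∈ crit F, (p.2.2 : ℂ) = p.2.1 * (p.1 - t)
      · exact Or.inr ⟨hp0, h2⟩
      · push Not at h2
        exact Or.inl ⟨hp0, goodC_of hF hp1 hp3 hp4 hp2 h2.1 h2.2⟩
    refine (card_le_card h1).trans ((card_union_le _ _).trans (Nat.add_le_add ?_ le_rfl))
    refine card_le_card_of_injOn (fun p => (-p.1, p.2.1, p.2.2 - p.1 * p.2.1)) ?_ ?_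
    · intro p hp
      rw [mem_coe, mem_filter, mem_box3] at hp
      obtain ⟨⟨h2, h3, h4⟩, h5⟩ := hp
      rw [mem_coe, mem_filter, mem_box3]
      have hhZ : (2 * h : ℤ) ≤ H := by
        have : 2 * h ≤ H := by omega
        exact_mod_cast this
      have hh0 : (0 : ℤ) ≤ h := by positivity
      refine ⟨⟨?_, ?_, ?_⟩, h5⟩
      · show |-p.1| ≤ (H : ℤ)
        rw [abs_neg]
        linarith
      · show |p.2.1| ≤ (H : ℤ)
        linarith
      · show |p.2.2 - p.1 * p.2.1| ≤ ((H ^ 2 : ℕ) : ℤ)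
        have h7 : |p.1 * p.2.1| ≤ (h : ℤ) * h := by
          rw [abs_mul]
          exact mul_le_mul h2 h3 (abs_nonneg _) (by positivity)
        have h8 := abs_sub p.2.2 (p.1 * p.2.1)
        push_cast at h4 ⊢
        nlinarith
    · intro p hp q hq h
      simp only [Prod.mk.injEq, neg_inj] at h
      obtain ⟨h2, h3, h4⟩ := h
      refine Prod.ext h2 (Prod.ext h3 ?_)
      rw [h2, h3] at h4
      linarith
  have hmapr : (((box3 h).filter fun p => p.2.2 ≠ 0 ∧ ELSF F p.1 p.2.1 p.2.2 ∧ p.1 * p.2.1 ≠ 0 ∧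
      p.1 * p.2.1 ≠ p.2.2).card : ℝ) ≤ (((box3 H).filter fun p => GoodC F p).card : ℝ) +
      (((box3 h).filter fun p => (p.1 : ℂ) ∈ crit F ∨
        ∃ t ∈ crit F, (p.2.2 : ℂ) = p.2.1 * (p.1 - t)).card : ℝ) := by
    exact_mod_cast hmap
  -- comparison
  have hLn : 0 < Real.log h ^ (-(1 : ℝ) / 2) := Real.rpow_pos_of_pos (by linarith) _
  have b1 : B * (h : ℝ) ^ 3 ≤ c / 2 * (h : ℝ) ^ 4 * Real.log h ^ (-(1 : ℝ) / 2) := by
    have c1 : Real.log h ≤ 2 * Real.sqrt h := log_le_sqrt (by omega)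
    have hs0 : 0 < Real.sqrt h := Real.sqrt_pos.2 (by linarith)
    have hss : Real.sqrt h * Real.sqrt h = h := Real.mul_self_sqrt (by linarith)
    have c2 : (Real.log h)⁻¹ ≤ Real.log h ^ (-(1 : ℝ) / 2) := by
      have b1 : Real.log h ^ (-(1 : ℝ)) ≤ Real.log h ^ (-(1 : ℝ) / 2) :=
        Real.rpow_le_rpow_of_exponent_le hL1.le (by norm_num)
      rwa [Real.rpow_neg_one] at b1
    have c3 : (2 * Real.sqrt h)⁻¹ ≤ (Real.log h)⁻¹ := inv_anti₀ (by linarith) c1
    have c4 : 40 * B / c ≤ Real.sqrt h := by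
      refine Real.le_sqrt_of_sq_le ?_
      have : (N : ℝ) ≤ h := by exact_mod_cast hhN
      linarith
    have c5 : 40 * B ≤ c * Real.sqrt h := by
      rw [div_le_iff₀ hc] at c4
      linarith
    calc B * (h : ℝ) ^ 3 ≤ c * Real.sqrt h / 40 * (h : ℝ) ^ 3 :=
          mul_le_mul_of_nonneg_right (by linarith) (by positivity)
      _ ≤ c / 2 * (h : ℝ) ^ 4 * (2 * Real.sqrt h)⁻¹ := by
          have : (h : ℝ) ^ 4 = (h : ℝ) ^ 3 * (Real.sqrt h * Real.sqrt h) := by rw [hss]; ring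
          rw [this]
          have e : c / 2 * ((h : ℝ) ^ 3 * (Real.sqrt h * Real.sqrt h)) * (2 * Real.sqrt h)⁻¹ =
            c * Real.sqrt h / 4 * (h : ℝ) ^ 3 := by
            field_simp
            norm_num
          rw [e]
          refine mul_le_mul_of_nonneg_right ?_ (by positivity)
          have : 0 ≤ c * Real.sqrt h := by positivity
          linarith
      _ ≤ _ := mul_le_mul_of_nonneg_left (c3.trans c2) (by positivity)
  have b2 : c / 2 * (h : ℝ) ^ 4 * Real.log h ^ (-(1 : ℝ) / 2) ≤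
      (((box3 H).filter fun p => GoodC F p).card : ℝ) := by linarith
  refine le_trans ?_ b2
  have b3 : (H : ℝ) ^ 4 ≤ 256 * (h : ℝ) ^ 4 := by
    calc (H : ℝ) ^ 4 ≤ (4 * h) ^ 4 := pow_le_pow_left₀ (Nat.cast_nonneg _) hHh 4
      _ = _ := by ring
  have b4 : Real.log H ^ (-(1 : ℝ) / 2) ≤ Real.log h ^ (-(1 : ℝ) / 2) :=
    Real.rpow_le_rpow_of_nonpos (by linarith) hLh (by norm_num)
  have b5 : 0 ≤ Real.log H ^ (-(1 : ℝ) / 2) := Real.rpow_nonneg (by linarith) _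
  calc c / 512 * (H : ℝ) ^ 4 * Real.log H ^ (-(1 : ℝ) / 2)
      ≤ c / 512 * (256 * (h : ℝ) ^ 4) * Real.log h ^ (-(1 : ℝ) / 2) :=
        mul_le_mul (mul_le_mul_of_nonneg_left b3 (by positivity)) b4 b5 (by positivity)
    _ = _ := by ring

end Pool.Agent.H14Q
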