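import Pool.Agent.N782.QA
import Pool.Agent.H14Q.Low3

/-!
# The Legendre symbols of the large prime divisor of `k` have mean value zero
-/

set_option autoImplicit false

namespace Pool.Agent.H14Q

open Finset Pool.Agent.H306R2.RZ

theorem log_small {H : ℕ} (hH : 1 ≤ H) : 1 + Real.log H ≤ 21 * (H : ℝ) ^ ((1 : ℝ) / 20) := by
  have hHr : (1 : ℝ) ≤ H := by exact_mod_cast hH
  have h1 := Real.log_le_rpow_div (x := (H : ℝ)) (ε := 1 / 20) (by linarith) (by norm_num)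
  have h2 : (1 : ℝ) ≤ (H : ℝ) ^ ((1 : ℝ) / 20) := Real.one_le_rpow hHr (by norm_num)
  have h3 : (H : ℝ) ^ ((1 : ℝ) / 20) / (1 / 20) = 20 * (H : ℝ) ^ ((1 : ℝ) / 20) := by ring
  linarith

theorem err : ∃ C : ℝ, 0 < C ∧ ∀ (H z : ℕ) (T : Finset (ℕ × ℕ)), 1 ≤ H → z ≤ H ^ 2 →
    (∀ x ∈ T, x.1 ∈ Icc 1 H ∧ x.2 ∈ Icc 1 H) →
    ∑ p ∈ Pr H z, |∑ x ∈ T, js (x.2 : ℤ) p| ≤ C * (H : ℝ) ^ ((18 : ℝ) / 5) := by
  classical
  obtain ⟨C, hC, h⟩ := Pool.Agent.N782.Q.lrg (1 / 100) (by norm_num)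
  refine ⟨21 * Real.sqrt (2 * C), by positivity, ?_⟩
  intro H z T hH hz hT
  have hHr : (1 : ℝ) ≤ H := by exact_mod_cast hH
  have hH0 : (0 : ℝ) < H := by linarith
  obtain ⟨a, ha⟩ : ∃ a : ℕ → ℂ, ∀ n, a n = (((T.filter fun x => x.2 = n).card : ℕ) : ℂ) :=
    ⟨_, fun _ => rfl⟩
  have haH : ∀ n ∈ Icc 1 H, ‖a n‖ ≤ H := by
    intro n _
    rw [ha, Complex.norm_natCast]
    have h1 : (T.filter fun x => x.2 = n).card ≤ (Icc 1 H).card := by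
      refine card_le_card_of_injOn (fun x => x.1) ?_ ?_
      · intro x hx
        rw [mem_coe, mem_filter] at hx
        exact (hT x hx.1).1
      · intro x hx y hy hxy
        rw [mem_coe, mem_filter] at hx hy
        exact Prod.ext hxy (hx.2.trans hy.2.symm)
    rw [Nat.card_Icc, Nat.add_sub_cancel] at h1
    exact_mod_cast h1
  have hb := h H (H ^ 2) a H (Nat.one_le_pow _ _ hH) hH hH0.le haH
  -- the sums
  have hS : ∀ p : ℕ, ∑ n ∈ Icc 1 H, a n * (js (n : ℤ) p : ℂ) =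
      ((∑ x ∈ T, js (x.2 : ℤ) p : ℝ) : ℂ) := by
    intro p
    rw [← Finset.sum_fiberwise_of_maps_to (s := T) (t := Icc 1 H) (g := fun x => x.2)
      (fun x hx => (hT x hx).2)]
    push_cast
    refine Finset.sum_congr rfl fun n _ => ?_
    rw [Finset.sum_congr rfl (g := fun _ => (js (n : ℤ) p : ℂ)) (fun x hx => by
      rw [(mem_filter.1 hx).2]), sum_const, nsmul_eq_mul, ha]
  have hsub : Pr H z ⊆ osf (H ^ 2) := by
    intro p hp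
    unfold Pr at hp
    unfold osf
    rw [mem_filter, mem_range] at hp
    rw [mem_filter, mem_Icc]
    obtain ⟨h1, h2, h3, h4⟩ := hp
    refine ⟨⟨h2.one_lt.le, by omega⟩, ?_, h2.prime.squarefree⟩
    rw [Nat.odd_iff]
    omega
  have h1 : ∑ p ∈ Pr H z, |∑ x ∈ T, js (x.2 : ℤ) p| ^ 2 ≤
      C * ((H : ℝ) * ((H ^ 2 : ℕ) : ℝ)) ^ ((1 : ℝ) / 100) * (H + ((H ^ 2 : ℕ) : ℝ)) * H *
        (H : ℝ) ^ 2 * (1 + Real.log H) ^ 2 := by
    refine le_trans ?_ hb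
    refine le_trans (le_of_eq ?_) (Finset.sum_le_sum_of_subset_of_nonneg hsub
      (fun p _ _ => by positivity))
    refine Finset.sum_congr rfl fun p _ => ?_
    rw [hS, Complex.norm_real, Real.norm_eq_abs]
  have hcard : ((Pr H z).card : ℝ) ≤ (H : ℝ) ^ 2 := by
    have h2 : (Pr H z).card ≤ H ^ 2 := by
      have h3 : Pr H z ⊆ Icc 1 (H ^ 2) := by
        intro p hp
        unfold Pr at hp
        rw [mem_filter, mem_range] at hp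
        rw [mem_Icc]
        exact ⟨hp.2.1.one_lt.le, by omega⟩
      have := card_le_card h3
      rwa [Nat.card_Icc, Nat.add_sub_cancel] at this
    exact_mod_cast h2
  have hcs : ∑ p ∈ Pr H z, |∑ x ∈ T, js (x.2 : ℤ) p| ≤ Real.sqrt ((Pr H z).card : ℝ) *
      Real.sqrt (∑ p ∈ Pr H z, |∑ x ∈ T, js (x.2 : ℤ) p| ^ 2) := by
    rw [← Real.sqrt_mul (Nat.cast_nonneg _)]
    refine Real.le_sqrt_of_sq_le ?_
    exact sq_sum_le_card_mul_sum_sq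
  have hl0 : 0 ≤ Real.log H := Real.log_nonneg hHr
  have hW : C * ((H : ℝ) * ((H ^ 2 : ℕ) : ℝ)) ^ ((1 : ℝ) / 100) * (H + ((H ^ 2 : ℕ) : ℝ)) * H *
        (H : ℝ) ^ 2 * (1 + Real.log H) ^ 2 ≤ 2 * C * ((H : ℝ) ^ ((3 : ℝ) / 100) * (H : ℝ) ^ 5) *
        (21 * (H : ℝ) ^ ((1 : ℝ) / 20)) ^ 2 := by
    have e1 : ((H : ℝ) * ((H ^ 2 : ℕ) : ℝ)) ^ ((1 : ℝ) / 100) = (H : ℝ) ^ ((3 : ℝ) / 100) := by
      have : (H : ℝ) * ((H ^ 2 : ℕ) : ℝ) = (H : ℝ) ^ (3 : ℝ) := by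
        push_cast
        rw [show (3 : ℝ) = ((3 : ℕ) : ℝ) by norm_num, Real.rpow_natCast]
        ring
      rw [this, ← Real.rpow_mul hH0.le]
      norm_num
    rw [e1]
    have e2 : (H : ℝ) + ((H ^ 2 : ℕ) : ℝ) ≤ 2 * (H : ℝ) ^ 2 := by
      push_cast
      nlinarith
    have e3 : (1 + Real.log H) ^ 2 ≤ (21 * (H : ℝ) ^ ((1 : ℝ) / 20)) ^ 2 :=
      pow_le_pow_left₀ (by linarith) (log_small hH) 2
    have hp0 : 0 < (H : ℝ) ^ ((3 : ℝ) / 100) := Real.rpow_pos_of_pos hH0 _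
    calc C * (H : ℝ) ^ ((3 : ℝ) / 100) * (H + ((H ^ 2 : ℕ) : ℝ)) * H *
        (H : ℝ) ^ 2 * (1 + Real.log H) ^ 2 ≤ C * (H : ℝ) ^ ((3 : ℝ) / 100) * (2 * (H : ℝ) ^ 2) * H *
        (H : ℝ) ^ 2 * (21 * (H : ℝ) ^ ((1 : ℝ) / 20)) ^ 2 := by gcongr
      _ = _ := by ring
  have hfin : Real.sqrt ((Pr H z).card : ℝ) *
      Real.sqrt (∑ p ∈ Pr H z, |∑ x ∈ T, js (x.2 : ℤ) p| ^ 2) ≤
      21 * Real.sqrt (2 * C) * (H : ℝ) ^ ((18 : ℝ) / 5) := by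
    have a1 : Real.sqrt ((Pr H z).card : ℝ) ≤ H := by
      rw [Real.sqrt_le_left hH0.le]
      exact hcard
    have a2 : Real.sqrt (∑ p ∈ Pr H z, |∑ x ∈ T, js (x.2 : ℤ) p| ^ 2) ≤
        Real.sqrt (2 * C) * (H : ℝ) ^ ((253 : ℝ) / 100) * (21 * (H : ℝ) ^ ((1 : ℝ) / 20)) := by
      rw [Real.sqrt_le_left (by positivity)]
      refine (h1.trans hW).trans ?_
      rw [mul_pow (Real.sqrt (2 * C) * (H : ℝ) ^ ((253 : ℝ) / 100)), mul_pow (Real.sqrt (2 * C)),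
        Real.sq_sqrt (by positivity)]
      have e : (H : ℝ) ^ ((3 : ℝ) / 100) * (H : ℝ) ^ 5 ≤ ((H : ℝ) ^ ((253 : ℝ) / 100)) ^ 2 := by
        rw [← Real.rpow_natCast, ← Real.rpow_natCast, ← Real.rpow_add hH0, ← Real.rpow_mul hH0.le]
        exact Real.rpow_le_rpow_of_exponent_le hHr (by norm_num)
      have e4 : 0 ≤ (21 * (H : ℝ) ^ ((1 : ℝ) / 20)) ^ 2 := by positivity
      exact mul_le_mul_of_nonneg_right (mul_le_mul_of_nonneg_left e (by positivity)) e4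
    calc _ ≤ (H : ℝ) * (Real.sqrt (2 * C) * (H : ℝ) ^ ((253 : ℝ) / 100) *
          (21 * (H : ℝ) ^ ((1 : ℝ) / 20))) :=
          mul_le_mul a1 a2 (Real.sqrt_nonneg _) hH0.le
      _ = 21 * Real.sqrt (2 * C) * ((H : ℝ) ^ (1 : ℝ) * (H : ℝ) ^ ((253 : ℝ) / 100) *
          (H : ℝ) ^ ((1 : ℝ) / 20)) := by
          rw [Real.rpow_one]
          ring
      _ ≤ 21 * Real.sqrt (2 * C) * (H : ℝ) ^ ((18 : ℝ) / 5) := by
          refine mul_le_mul_of_nonneg_left ?_ (by positivity)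
          rw [← Real.rpow_add hH0, ← Real.rpow_add hH0]
          exact Real.rpow_le_rpow_of_exponent_le hHr (by norm_num)
  exact le_trans hcs hfin

end Pool.Agent.H14Q
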