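import Pool.Agent.H14Q2.Lg
import Pool.Agent.W313.BMX.Stm

/-!
# The certificate excludes a family of local solutions of one twist
-/

set_option autoImplicit false

namespace Pool.Agent.H14Q

/-- a `p`-adic solution of the twist `N` -/
def LocSol (m n k N : ℤ) (p : ℕ) [Fact p.Prime] : Prop :=
  ∃ r s u v g h : ℤ_[p], ¬ ((p : ℤ_[p]) ∣ r ∧ (p : ℤ_[p]) ∣ s) ∧
      ¬ ((p : ℤ_[p]) ∣ u ∧ (p : ℤ_[p]) ∣ v) ∧ r ^ 2 - m * s ^ 2 = g * v ^ 2 ∧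
      u ^ 2 - n * v ^ 2 = h * s ^ 2 ∧ g * h = k ∧
      ∃ τ : ℚ_[p], τ ≠ 0 ∧ (g : ℚ_[p]) = N * τ ^ 2

section padic

variable {p : ℕ} [hp : Fact p.Prime]

/-- the norm of a squarefree integer is at least `1/p` -/
theorem norm_sqf {N : ℤ} (hN : Squarefree N) : (p : ℝ)⁻¹ ≤ ‖(N : ℚ_[p])‖ := by
  by_contra h
  push Not at h
  have hp1 : (1 : ℝ) < p := by exact_mod_cast hp.out.one_lt
  have h1 : ‖(N : ℚ_[p])‖ ≤ (p : ℝ) ^ (-(2 : ℕ) : ℤ) := by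
    have h2 : ‖(N : ℚ_[p])‖ < (p : ℝ) ^ (-(1 : ℕ) : ℤ) := by
      simpa using h
    have := (Padic.norm_le_pow_iff_norm_lt_pow_add_one (N : ℚ_[p]) (-2)).2 (by simpa using h2)
    simpa using this
  rw [Padic.norm_int_le_pow_iff_dvd] at h1
  have h2 : (p : ℤ) * p ∣ N := by
    have e : ((p ^ 2 : ℕ) : ℤ) = (p : ℤ) * p := by push_cast; ring
    rwa [← e]
    try exact h1
  have h3 := hN _ h2
  rw [Int.isUnit_iff] at h3
  have := hp.out.one_lt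
  omega

theorem tau_int {N : ℤ} (hN : Squarefree N) {g : ℤ_[p]} {τ : ℚ_[p]}
    (h : (g : ℚ_[p]) = N * τ ^ 2) : ‖τ‖ ≤ 1 := by
  have hp1 : (1 : ℝ) < p := by exact_mod_cast hp.out.one_lt
  by_contra hcon
  push Not at hcon
  have h1 : (p : ℝ) ≤ ‖τ‖ := by
    by_contra h2
    push Not at h2
    have := (Padic.norm_le_pow_iff_norm_lt_pow_add_one τ 0).2 (by simpa using h2)
    simp only [zpow_zero] at this
    linarith
  have h2 : ‖(g : ℚ_[p])‖ ≤ 1 := PadicInt.norm_le_one g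
  rw [h, norm_mul, norm_pow] at h2
  have h3 := norm_sqf (p := p) hN
  have hp0 : (0 : ℝ) < p := by linarith
  have h4 : (p : ℝ)⁻¹ * p ^ 2 ≤ ‖(N : ℚ_[p])‖ * ‖τ‖ ^ 2 :=
    mul_le_mul h3 (pow_le_pow_left₀ hp0.le h1 2) (by positivity) (norm_nonneg _)
  have h5 : (p : ℝ)⁻¹ * p ^ 2 = p := by field_simp
  linarith

end padic

theorem cert_local {m n k : ℤ} (hc : Cert m n k) {N : ℤ} (hN : Squarefree N)
    (hloc : ∀ (p : ℕ) [Fact p.Prime], LocSol m n k N p) : False := by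
  classical
  have hk : k ≠ 0 := hc.1
  have hN0 : N ≠ 0 := hN.ne_zero
  -- the exponents
  have hex : ∀ p : Nat.Primes, ∃ e : ℕ, ∃ (r s u v g h : ℤ_[(p : ℕ)]) (ε : ℤ_[(p : ℕ)]),
      ¬ (((p : ℕ) : ℤ_[(p : ℕ)]) ∣ r ∧ ((p : ℕ) : ℤ_[(p : ℕ)]) ∣ s) ∧
      ¬ (((p : ℕ) : ℤ_[(p : ℕ)]) ∣ u ∧ ((p : ℕ) : ℤ_[(p : ℕ)]) ∣ v) ∧
      r ^ 2 - m * s ^ 2 = g * v ^ 2 ∧
      u ^ 2 - n * v ^ 2 = h * s ^ 2 ∧ g * h = k ∧ IsUnit ε ∧
      g = N * (ε * ((p : ℕ) : ℤ_[(p : ℕ)]) ^ e) ^ 2 ∧ (¬ ((p : ℕ) : ℤ) ∣ k → e = 0) := by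
    intro p
    have : Fact (p : ℕ).Prime := ⟨p.2⟩
    obtain ⟨r, s, u, v, g, h, h1, h2, h3, h4, h5, τ, hτ, h6⟩ := hloc p
    have h7 := tau_int hN h6
    obtain ⟨t, ht⟩ : ∃ t : ℤ_[(p : ℕ)], t = ⟨τ, h7⟩ := ⟨_, rfl⟩
    have htτ : (t : ℚ_[(p : ℕ)]) = τ := by rw [ht]
    have ht0 : t ≠ 0 := by
      intro h0
      rw [h0] at htτ
      exact hτ (by rw [← htτ]; simp)
    have hg : g = N * t ^ 2 := by
      refine PadicInt.ext ?_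
      push_cast
      rw [h6, htτ]
    have hu := PadicInt.unitCoeff_spec ht0
    refine ⟨t.valuation, r, s, u, v, g, h, (PadicInt.unitCoeff ht0 : ℤ_[(p : ℕ)]ˣ), h1, h2, h3, h4,
      h5, Units.isUnit _, by rw [← hu]; exact hg, ?_⟩
    intro hpk
    have h8 : IsUnit ((k : ℤ) : ℤ_[(p : ℕ)]) := by
      rw [PadicInt.isUnit_iff]
      have := PadicInt.norm_int_lt_one_iff_dvd (p := (p : ℕ)) k
      exact le_antisymm (PadicInt.norm_le_one _) (not_lt.1 fun hlt => hpk (this.1 hlt))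
    rw [← h5, hg] at h8
    have h9 : IsUnit t := by
      have a1 : IsUnit (N * t ^ 2 : ℤ_[(p : ℕ)]) := isUnit_of_mul_isUnit_left h8
      have a2 : IsUnit (t ^ 2 : ℤ_[(p : ℕ)]) := isUnit_of_mul_isUnit_right a1
      exact (isUnit_pow_iff two_ne_zero).1 a2
    rw [PadicInt.isUnit_iff] at h9
    have h10 := PadicInt.norm_eq_zpow_neg_valuation ht0
    rw [h9] at h10
    have hp1 : (1 : ℝ) < ((p : ℕ) : ℝ) := by exact_mod_cast p.2.one_lt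
    have h11 : (-(t.valuation : ℤ)) = 0 := by
      have := (zpow_eq_one_iff_right₀ (by linarith : (0 : ℝ) ≤ ((p : ℕ) : ℝ)) hp1.ne').1 h10.symm
      exact this
    omega
  choose e he using hex
  -- the integer T
  obtain ⟨E, hE⟩ : ∃ E : ℕ → ℕ, ∀ q, E q = if h : q.Prime then e ⟨q, h⟩ else 0 := ⟨_, fun _ => rfl⟩
  obtain ⟨T, hT⟩ : ∃ T : ℕ, T = ∏ q ∈ k.natAbs.primeFactors, q ^ E q := ⟨_, rfl⟩
  have hEk : ∀ q : ℕ, q.Prime → q ∉ k.natAbs.primeFactors → E q = 0 := by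
    intro q hq hqk
    rw [hE, dif_pos hq]
    obtain ⟨r, s, u, v, g, h, ε, -, -, -, -, -, -, -, h1⟩ := he ⟨q, hq⟩
    refine h1 ?_
    intro hd
    apply hqk
    rw [Nat.mem_primeFactors]
    exact ⟨hq, Int.natCast_dvd.1 hd, Int.natAbs_ne_zero.2 hk⟩
  have hTu : ∀ q : ℕ, (hq : q.Prime) → ∃ w : ℕ, T = q ^ E q * w ∧ ¬ q ∣ w := by
    intro q hq
    by_cases hqk : q ∈ k.natAbs.primeFactors
    · refine ⟨∏ x ∈ k.natAbs.primeFactors.erase q, x ^ E x, ?_, ?_⟩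
      · rw [hT, Finset.mul_prod_erase _ (fun x => x ^ E x) hqk]
      · rw [hq.prime.dvd_finsetProd_iff]
        rintro ⟨x, hx, hd⟩
        have hx' := Finset.mem_erase.1 hx
        have := hq.dvd_of_dvd_pow hd
        exact hx'.1 ((Nat.prime_dvd_prime_iff_eq hq (Nat.prime_of_mem_primeFactors hx'.2)).1 this).symm
    · refine ⟨T, by rw [hEk q hq hqk, pow_zero, one_mul], ?_⟩
      rw [hT, hq.prime.dvd_finsetProd_iff]
      rintro ⟨x, hx, hd⟩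
      have := hq.dvd_of_dvd_pow hd
      have h2 := (Nat.prime_dvd_prime_iff_eq hq (Nat.prime_of_mem_primeFactors hx)).1 this
      rw [h2] at hqk
      exact hqk hx
  have hT0 : T ≠ 0 := by
    rw [hT]
    exact Finset.prod_ne_zero_iff.2 fun x hx => pow_ne_zero _ (Nat.prime_of_mem_primeFactors hx).ne_zero
  -- local data with the integer g0
  obtain ⟨g0, hg0⟩ : ∃ g0 : ℤ, g0 = N * (T : ℤ) ^ 2 := ⟨_, rfl⟩
  have hg00 : g0 ≠ 0 := by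
    rw [hg0]
    exact mul_ne_zero hN0 (pow_ne_zero 2 (by exact_mod_cast hT0))
  have key : ∀ (p : ℕ) [Fact p.Prime], ∃ (r s u v h : ℤ_[p]), ¬ ((p : ℤ_[p]) ∣ r ∧ (p : ℤ_[p]) ∣ s) ∧
      ¬ ((p : ℤ_[p]) ∣ u ∧ (p : ℤ_[p]) ∣ v) ∧ r ^ 2 - m * s ^ 2 = g0 * v ^ 2 ∧
      u ^ 2 - n * v ^ 2 = h * s ^ 2 ∧ (g0 : ℤ_[p]) * h = k := by
    intro p hpf
    have hp := hpf.out
    obtain ⟨r, s, u, v, g, h, ε, h1, h2, h3, h4, h5, h6, h7, -⟩ := he ⟨p, hp⟩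
    obtain ⟨w, hw, hpw⟩ := hTu p hp
    have hEp : E p = e ⟨p, hp⟩ := by rw [hE, dif_pos hp]
    have hwu : IsUnit ((w : ℕ) : ℤ_[p]) := by
      rw [PadicInt.isUnit_iff]
      have := PadicInt.norm_int_lt_one_iff_dvd (p := p) (w : ℤ)
      refine le_antisymm (PadicInt.norm_le_one _) (not_lt.1 fun hlt => ?_)
      have h8 : ‖((w : ℤ) : ℤ_[p])‖ < 1 := by exact_mod_cast hlt
      exact hpw (by exact_mod_cast this.1 h8)
    obtain ⟨W, hW⟩ := hwu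
    obtain ⟨ε', hε'⟩ := h6
    -- g = g0 * (ε / w)²
    obtain ⟨δ, hδ⟩ : ∃ δ : ℤ_[p], δ = ε * ((W⁻¹ : ℤ_[p]ˣ) : ℤ_[p]) := ⟨_, rfl⟩
    have hδu : IsUnit δ := by
      rw [hδ, ← hε']
      exact (ε'.isUnit).mul (Units.isUnit _)
    have hWi : ((W⁻¹ : ℤ_[p]ˣ) : ℤ_[p]) * ((w : ℕ) : ℤ_[p]) = 1 := by
      rw [← hW, Units.inv_mul]
    have hg : g = g0 * δ ^ 2 := by
      rw [h7, hg0, hδ, hw, hEp]
      push_cast
      have : (W⁻¹ : ℤ_[p]ˣ).val ^ 2 * ((w : ℕ) : ℤ_[p]) ^ 2 = 1 := by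
        rw [← mul_pow, hWi, one_pow]
      linear_combination (-(N : ℤ_[p]) * ε ^ 2 * ((p : ℤ_[p]) ^ e ⟨p, hp⟩) ^ 2) * this
    refine ⟨r, s, δ * u, δ * v, δ ^ 2 * h, h1, ?_, ?_, ?_, ?_⟩
    · rintro ⟨a1, a2⟩
      refine h2 ⟨?_, ?_⟩
      · exact (PadicInt.prime_p.dvd_or_dvd a1).resolve_left fun hd =>
          PadicInt.prime_p.not_isUnit (isUnit_of_dvd_unit hd hδu)
      · exact (PadicInt.prime_p.dvd_or_dvd a2).resolve_left fun hd =>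
          PadicInt.prime_p.not_isUnit (isUnit_of_dvd_unit hd hδu)
    · rw [h3, hg]
      ring
    · linear_combination δ ^ 2 * h4
    · rw [← h5, hg]
      ring
  -- g0 divides k
  have hdvd : g0 ∣ k := by
    rw [← Int.natAbs_dvd_natAbs, Nat.dvd_iff_prime_pow_dvd_dvd]
    intro p j hp hd
    have : Fact p.Prime := ⟨hp⟩
    obtain ⟨r, s, u, v, h, -, -, -, -, h5⟩ := key p
    have h6 : (p : ℤ) ^ j ∣ g0 := by
      have h6' : ((p ^ j : ℕ) : ℤ) ∣ g0 := Int.natCast_dvd.2 hd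
      exact_mod_cast h6'
    have h7 : ‖(g0 : ℤ_[p])‖ ≤ (p : ℝ) ^ (-(j : ℤ)) := PadicInt.norm_int_le_pow_iff_dvd.2 h6
    have h8 : ‖(k : ℤ_[p])‖ ≤ (p : ℝ) ^ (-(j : ℤ)) := by
      rw [← h5, norm_mul]
      have := PadicInt.norm_le_one h
      calc ‖(g0 : ℤ_[p])‖ * ‖h‖ ≤ ‖(g0 : ℤ_[p])‖ * 1 :=
            mul_le_mul_of_nonneg_left this (norm_nonneg _)
        _ ≤ _ := by rw [mul_one]; exact h7
    have h9 : (p : ℤ) ^ j ∣ k := PadicInt.norm_int_le_pow_iff_dvd.1 h8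
    exact Int.natCast_dvd.1 (by exact_mod_cast h9)
  obtain ⟨h0, hh0⟩ := hdvd
  obtain ⟨q, hq2, ho⟩ := hc.2 g0 h0 hh0.symm
  obtain ⟨p, hp, hpq⟩ := Nat.exists_prime_and_dvd (by omega : q ≠ 1)
  have : Fact p.Prime := ⟨hp⟩
  obtain ⟨r, s, u, v, h, h1, h2, h3, h4, h5⟩ := key p
  have hh : h = h0 := by
    have : (g0 : ℤ_[p]) * h = g0 * h0 := by
      rw [h5, hh0]
      push_cast
      ring
    refine mul_left_cancel₀ ?_ this
    exact_mod_cast hg00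
  rw [hh] at h4
  exact obs_padic hpq (by omega) ho h1 h2 h3 h4

end Pool.Agent.H14Q
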