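import Pool.Agent.H14Q.Desc
import Mathlib

/-!
# The certificate and local solutions

A certificate `Cert m n k` contradicts a family of local solutions of one twist of the covering.
-/

set_option autoImplicit false

namespace Pool.Agent.H14Q

section padic

variable {p : ℕ} [hp : Fact p.Prime]

theorem dvd_of_lift {e : ℕ} (he : 1 ≤ e) {r : ℤ_[p]} {r' : ℤ}
    (h : PadicInt.toZModPow e r = (r' : ZMod (p ^ e))) (hd : (p : ℤ) ∣ r') : (p : ℤ_[p]) ∣ r := by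
  have h1 : PadicInt.toZModPow e (r - (r' : ℤ_[p])) = 0 := by
    rw [map_sub, h, map_intCast, sub_self]
  have h2 : r - (r' : ℤ_[p]) ∈ RingHom.ker (PadicInt.toZModPow (p := p) e) := h1
  rw [PadicInt.ker_toZModPow, Ideal.mem_span_singleton] at h2
  have h3 : (p : ℤ_[p]) ∣ r - (r' : ℤ_[p]) := (dvd_pow_self _ (by omega)).trans h2
  have h4 : (p : ℤ_[p]) ∣ (r' : ℤ_[p]) := by
    obtain ⟨c, rfl⟩ := hd
    exact ⟨c, by push_cast; ring⟩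
  have := dvd_add h3 h4
  rwa [sub_add_cancel] at this

/-- an obstruction modulo `q²` excludes primitive `p`-adic solutions, `p ∣ q` -/
theorem obs_padic {m n g h : ℤ} {q : ℕ} (hq : p ∣ q) (hq0 : q ≠ 0) (ho : Obs m n g h q)
    {r s u v : ℤ_[p]} (hrs : ¬ ((p : ℤ_[p]) ∣ r ∧ (p : ℤ_[p]) ∣ s))
    (huv : ¬ ((p : ℤ_[p]) ∣ u ∧ (p : ℤ_[p]) ∣ v))
    (e1 : r ^ 2 - m * s ^ 2 = g * v ^ 2) (e2 : u ^ 2 - n * v ^ 2 = h * s ^ 2) : False := by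
  obtain ⟨e, q', hq', hqe⟩ := Nat.exists_eq_pow_mul_and_not_dvd hq0 p hp.out.ne_one
  have he : 1 ≤ e := by
    rcases Nat.eq_zero_or_pos e with h0 | h0
    · rw [h0, pow_zero, one_mul] at hqe
      exact absurd (hqe ▸ hq) hq'
    · exact h0
  have hcop : IsCoprime ((p : ℤ) ^ (2 * e)) ((q' : ℤ) ^ 2) := by
    refine IsCoprime.pow ?_
    rw [Nat.isCoprime_iff_coprime]
    exact (Nat.Prime.coprime_iff_not_dvd hp.out).2 hq'
  obtain ⟨a, b, hab⟩ := hcop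
  obtain ⟨c, hc⟩ : ∃ c, c = b * (q' : ℤ) ^ 2 := ⟨_, rfl⟩
  have hpc : ¬ (p : ℤ) ∣ c := by
    intro hd
    have h1 : (p : ℤ) ∣ a * (p : ℤ) ^ (2 * e) := (dvd_pow_self _ (by omega)).mul_left _
    have h2 := dvd_add h1 (hc ▸ hd)
    rw [hab] at h2
    have := Int.isUnit_iff.1 (isUnit_of_dvd_one h2)
    have h3 := hp.out.one_lt
    omega
  have hpz : Prime (p : ℤ) := Nat.prime_iff_prime_int.1 hp.out
  have hlift : ∀ x : ℤ_[p], ∃ x' : ℤ, PadicInt.toZModPow (2 * e) x = (x' : ZMod (p ^ (2 * e))) := by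
    intro x
    obtain ⟨y, hy⟩ := ZMod.intCast_surjective (PadicInt.toZModPow (2 * e) x)
    exact ⟨y, hy.symm⟩
  obtain ⟨r', hr⟩ := hlift r
  obtain ⟨s', hs⟩ := hlift s
  obtain ⟨u', hu⟩ := hlift u
  obtain ⟨v', hv⟩ := hlift v
  have h1 : (p : ℤ) ^ (2 * e) ∣ r' ^ 2 - m * s' ^ 2 - g * v' ^ 2 := by
    have := congrArg (PadicInt.toZModPow (2 * e)) e1
    simp only [map_sub, map_mul, map_pow, map_intCast, hr, hs, hv] at this
    have h2 : (((r' ^ 2 - m * s' ^ 2 - g * v' ^ 2 : ℤ)) : ZMod (p ^ (2 * e))) = 0 := by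
      push_cast
      rw [this, sub_self]
    rw [ZMod.intCast_zmod_eq_zero_iff_dvd] at h2
    exact_mod_cast h2
  have h2 : (p : ℤ) ^ (2 * e) ∣ u' ^ 2 - n * v' ^ 2 - h * s' ^ 2 := by
    have := congrArg (PadicInt.toZModPow (2 * e)) e2
    simp only [map_sub, map_mul, map_pow, map_intCast, hu, hs, hv] at this
    have h2 : (((u' ^ 2 - n * v' ^ 2 - h * s' ^ 2 : ℤ)) : ZMod (p ^ (2 * e))) = 0 := by
      push_cast
      rw [this, sub_self]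
    rw [ZMod.intCast_zmod_eq_zero_iff_dvd] at h2
    exact_mod_cast h2
  have hqq : ((q : ℕ) : ℤ) ^ 2 = (p : ℤ) ^ (2 * e) * (q' : ℤ) ^ 2 := by
    rw [hqe]
    push_cast
    ring
  have hqc : (q' : ℤ) ^ 2 ∣ c ^ 2 := by
    have : (q' : ℤ) ^ 2 ∣ c := ⟨b, by rw [hc]; ring⟩
    exact this.mul_right c |>.trans (by rw [pow_two])
  have hpq : (p : ℤ) ∣ (q : ℤ) := by exact_mod_cast hq
  rcases ho (c * r') (c * s') (c * u') (c * v') (by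
      have e : (c * r') ^ 2 - m * (c * s') ^ 2 - g * (c * v') ^ 2 =
        (r' ^ 2 - m * s' ^ 2 - g * v' ^ 2) * c ^ 2 := by ring
      rw [e, hqq]
      exact mul_dvd_mul h1 hqc) (by
      have e : (c * u') ^ 2 - n * (c * v') ^ 2 - h * (c * s') ^ 2 =
        (u' ^ 2 - n * v' ^ 2 - h * s' ^ 2) * c ^ 2 := by ring
      rw [e, hqq]
      exact mul_dvd_mul h2 hqc) with ⟨h3, h4⟩ | ⟨h3, h4⟩
  · exact hrs ⟨dvd_of_lift (by omega) hr ((hpz.dvd_or_dvd (hpq.trans h3)).resolve_left hpc),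
      dvd_of_lift (by omega) hs ((hpz.dvd_or_dvd (hpq.trans h4)).resolve_left hpc)⟩
  · exact huv ⟨dvd_of_lift (by omega) hu ((hpz.dvd_or_dvd (hpq.trans h3)).resolve_left hpc),
      dvd_of_lift (by omega) hv ((hpz.dvd_or_dvd (hpq.trans h4)).resolve_left hpc)⟩

/-- scaling -/
theorem scale {ξ η : ℚ_[p]} (h : ξ ≠ 0 ∨ η ≠ 0) : ∃ (l : ℚ_[p]) (r s : ℤ_[p]), l ≠ 0 ∧ ξ = l * r ∧
    η = l * s ∧ (r = 1 ∨ s = 1) := by
  rcases le_total ‖η‖ ‖ξ‖ with h1 | h1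
  · have hξ : ξ ≠ 0 := by
      rintro rfl
      rw [norm_zero] at h1
      have := norm_le_zero_iff.1 h1
      tauto
    have h2 : ‖η / ξ‖ ≤ 1 := by
      rw [norm_div, div_le_one (norm_pos_iff.2 hξ)]
      exact h1
    refine ⟨ξ, 1, ⟨η / ξ, h2⟩, hξ, by simp, ?_, Or.inl rfl⟩
    show η = ξ * (η / ξ)
    field_simp
  · have hη : η ≠ 0 := by
      rintro rfl
      rw [norm_zero] at h1
      have := norm_le_zero_iff.1 h1
      tauto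
    have h2 : ‖ξ / η‖ ≤ 1 := by
      rw [norm_div, div_le_one (norm_pos_iff.2 hη)]
      exact h1
    refine ⟨η, ⟨ξ / η, h2⟩, 1, hη, ?_, by simp, Or.inr rfl⟩
    show ξ = η * (ξ / η)
    field_simp

theorem not_dvd_one : ¬ (p : ℤ_[p]) ∣ 1 := by
  intro h
  exact PadicInt.prime_p.not_isUnit (isUnit_of_dvd_one h)

/-- if `x² - a y² = g z²`, `(x, y)` with an entry one, `‖g‖ < 1` ... then both are units -/
theorem prim_norm {a : ℤ} {r s : ℤ_[p]} (h : r = 1 ∨ s = 1) (hs : ‖(s : ℚ_[p])‖ < 1) :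
    ‖((r : ℚ_[p])) ^ 2 - a * (s : ℚ_[p]) ^ 2‖ = 1 := by
  have hr : r = 1 := by
    rcases h with h | h
    · exact h
    · rw [h] at hs
      simp at hs
  rw [hr]
  have h1 : ‖(a : ℚ_[p]) * (s : ℚ_[p]) ^ 2‖ < 1 := by
    rw [norm_mul, norm_pow]
    have h2 := Padic.norm_int_le_one (p := p) a
    have h3 : ‖(s : ℚ_[p])‖ ^ 2 < 1 := pow_lt_one₀ (norm_nonneg _) hs two_ne_zero
    nlinarith [norm_nonneg (a : ℚ_[p]), norm_nonneg (s : ℚ_[p])]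
  have h2 := Padic.add_eq_max_of_ne (p := p) (q := 1) (r := -((a : ℚ_[p]) * (s : ℚ_[p]) ^ 2)) (by
    rw [norm_neg, norm_one]
    exact h1.ne')
  have e : ((1 : ℤ_[p]) : ℚ_[p]) ^ 2 - a * (s : ℚ_[p]) ^ 2 = 1 + -((a : ℚ_[p]) * (s : ℚ_[p]) ^ 2) := by
    push_cast
    ring
  rw [e, h2, norm_neg, norm_one]
  exact max_eq_left h1.le

theorem form_le {a : ℤ} (r s : ℤ_[p]) : ‖((r : ℚ_[p])) ^ 2 - a * (s : ℚ_[p]) ^ 2‖ ≤ 1 := by
  have : ((r : ℚ_[p])) ^ 2 - a * (s : ℚ_[p]) ^ 2 = ((r ^ 2 - a * s ^ 2 : ℤ_[p]) : ℚ_[p]) := by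
    push_cast
    ring
  rw [this]
  exact PadicInt.norm_le_one _

/-- the local solution -/
theorem local_sol {m n k : ℤ} (hk : k ≠ 0) {ξ η A1 B1 ν : ℚ_[p]} (hν : ν ≠ 0)
    (h1 : ξ ^ 2 - m * η ^ 2 = ν * A1 ^ 2)
    (h2 : n * (ξ ^ 2 - m * η ^ 2) + k * η ^ 2 = ν * B1 ^ 2) (hξη : ξ ≠ 0 ∨ η ≠ 0)
    (hAB : B1 ≠ 0 ∨ A1 ≠ 0) :
    ∃ r s u v g h : ℤ_[p], ¬ ((p : ℤ_[p]) ∣ r ∧ (p : ℤ_[p]) ∣ s) ∧
      ¬ ((p : ℤ_[p]) ∣ u ∧ (p : ℤ_[p]) ∣ v) ∧ r ^ 2 - m * s ^ 2 = g * v ^ 2 ∧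
      u ^ 2 - n * v ^ 2 = h * s ^ 2 ∧ g * h = k ∧
      ∃ τ : ℚ_[p], τ ≠ 0 ∧ (g : ℚ_[p]) = ν * τ ^ 2 := by
  obtain ⟨l, r, s, hl, hξ, hη, hrs⟩ := scale hξη
  obtain ⟨μ, u, v, hμ, hB, hA, huv⟩ := scale hAB
  have hk' : (k : ℚ_[p]) ≠ 0 := by exact_mod_cast hk
  obtain ⟨g, hg⟩ : ∃ g : ℚ_[p], g = ν * (μ / l) ^ 2 := ⟨_, rfl⟩
  have hg0 : g ≠ 0 := by
    rw [hg]
    exact mul_ne_zero hν (pow_ne_zero 2 (div_ne_zero hμ hl))
  obtain ⟨h, hh⟩ : ∃ h : ℚ_[p], h = k / g := ⟨_, rfl⟩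
  have hh0 : h ≠ 0 := by
    rw [hh]
    exact div_ne_zero hk' hg0
  have hgh : g * h = k := by
    rw [hh]
    field_simp
  have f1 : (r : ℚ_[p]) ^ 2 - m * (s : ℚ_[p]) ^ 2 = g * (v : ℚ_[p]) ^ 2 := by
    rw [hξ, hη, hA] at h1
    rw [hg]
    field_simp
    linear_combination h1
  have f2 : (u : ℚ_[p]) ^ 2 - n * (v : ℚ_[p]) ^ 2 = h * (s : ℚ_[p]) ^ 2 := by
    rw [h1] at h2
    rw [hη, hA, hB] at h2
    rw [hh, hg]
    field_simp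
    linear_combination -h2
  have hkn : ‖(k : ℚ_[p])‖ ≤ 1 := Padic.norm_int_le_one k
  have hprod : ‖g‖ * ‖h‖ = ‖(k : ℚ_[p])‖ := by rw [← norm_mul, hgh]
  have hgp : 0 < ‖g‖ := norm_pos_iff.2 hg0
  have hhp : 0 < ‖h‖ := norm_pos_iff.2 hh0
  have hs1 : ‖(s : ℚ_[p])‖ ≤ 1 := PadicInt.norm_le_one s
  have hv1 : ‖(v : ℚ_[p])‖ ≤ 1 := PadicInt.norm_le_one v
  have hg1 : ‖g‖ ≤ 1 := by
    by_contra hcon
    push Not at hcon
    have a1 : ‖g * (v : ℚ_[p]) ^ 2‖ ≤ 1 := by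
      rw [← f1]
      exact form_le r s
    rw [norm_mul, norm_pow] at a1
    have a2 : ‖(v : ℚ_[p])‖ < 1 := by
      by_contra h3
      have h4 : ‖(v : ℚ_[p])‖ = 1 := le_antisymm hv1 (not_lt.1 h3)
      rw [h4] at a1
      linarith
    have a3 := prim_norm (a := n) huv a2
    rw [f2, norm_mul, norm_pow] at a3
    have a4 : ‖h‖ < 1 := by nlinarith
    have a5 : ‖(s : ℚ_[p])‖ ^ 2 ≤ 1 := pow_le_one₀ (norm_nonneg _) hs1
    nlinarith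
  have hh1 : ‖h‖ ≤ 1 := by
    by_contra hcon
    push Not at hcon
    have a1 : ‖h * (s : ℚ_[p]) ^ 2‖ ≤ 1 := by
      rw [← f2]
      exact form_le u v
    rw [norm_mul, norm_pow] at a1
    have a2 : ‖(s : ℚ_[p])‖ < 1 := by
      by_contra h3
      have h4 : ‖(s : ℚ_[p])‖ = 1 := le_antisymm hs1 (not_lt.1 h3)
      rw [h4] at a1
      linarith
    have a3 := prim_norm (a := m) hrs a2
    rw [f1, norm_mul, norm_pow] at a3
    have a4 : ‖g‖ < 1 := by nlinarith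
    have a5 : ‖(v : ℚ_[p])‖ ^ 2 ≤ 1 := pow_le_one₀ (norm_nonneg _) hv1
    nlinarith
  refine ⟨r, s, u, v, ⟨g, hg1⟩, ⟨h, hh1⟩, ?_, ?_, ?_, ?_, ?_, μ / l, div_ne_zero hμ hl, hg⟩
  · rintro ⟨h3, h4⟩
    rcases hrs with rfl | rfl
    · exact not_dvd_one h3
    · exact not_dvd_one h4
  · rintro ⟨h3, h4⟩
    rcases huv with rfl | rfl
    · exact not_dvd_one h3
    · exact not_dvd_one h4
  · refine PadicInt.ext ?_
    push_cast
    exact f1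
  · refine PadicInt.ext ?_
    push_cast
    exact f2
  · refine PadicInt.ext ?_
    push_cast
    exact hgh

end padic

end Pool.Agent.H14Q
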