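import Pool.Agent.H14Q2.Bm
import Pool.Agent.H14Q2.Els

/-!
# No rational points; adelic points from local solubility
-/

set_option autoImplicit false

namespace Pool.Agent.H14Q

open Polynomial Pool.Agent.W313.BMX

theorem sqf_rat {ν : ℚ} (hν : ν ≠ 0) : ∃ (N : ℤ) (t : ℚ), Squarefree N ∧ t ≠ 0 ∧ ν = N * t ^ 2 := by
  obtain ⟨δ, hδ⟩ : ∃ δ : ℕ, δ = ν.den := ⟨_, rfl⟩
  obtain ⟨z, hz⟩ : ∃ z : ℤ, z = ν.num * δ := ⟨_, rfl⟩
  have hδ0 : δ ≠ 0 := by rw [hδ]; exact ν.den_nz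
  have hd : (δ : ℚ) ≠ 0 := by exact_mod_cast hδ0
  have hz0 : z ≠ 0 := by
    rw [hz]
    exact mul_ne_zero (Rat.num_ne_zero.2 hν) (by exact_mod_cast hδ0)
  have hν1 : ν = z / (δ : ℚ) ^ 2 := by
    have h1 : ν * (δ : ℚ) = ν.num := by rw [hδ]; exact Rat.mul_den_eq_num ν
    have h2 : (z : ℚ) = ν.num * δ := by rw [hz]; push_cast; ring
    rw [h2, ← h1]
    field_simp
  obtain ⟨w, hw⟩ : ∃ w : ℕ, w = z.natAbs := ⟨_, rfl⟩
  obtain ⟨s, b, hb, hs⟩ := Nat.sq_mul_squarefree w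
  have hb0 : b ≠ 0 := by
    rintro rfl
    rw [zero_pow two_ne_zero, zero_mul] at hb
    rw [← hb] at hw
    exact hz0 (Int.natAbs_eq_zero.1 hw.symm)
  have hb' : (b : ℚ) ≠ 0 := by exact_mod_cast hb0
  have hsi : Squarefree (s : ℤ) := Int.squarefree_natCast.2 hs
  have hbz : (w : ℚ) = (b : ℚ) ^ 2 * s := by
    rw [← hb]
    push_cast
    ring
  rcases Int.natAbs_eq z with h | h
  · rw [← hw] at h
    refine ⟨s, b / δ, hsi, div_ne_zero hb' hd, ?_⟩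
    have h3 : (z : ℚ) = (b : ℚ) ^ 2 * s := by
      rw [← hbz, h]
      push_cast
      rfl
    rw [hν1, h3]
    push_cast
    field_simp
  · rw [← hw] at h
    have hsn : Squarefree (-(s : ℤ)) := Int.squarefree_natAbs.1 (by simpa using hs)
    refine ⟨-s, b / δ, hsn, div_ne_zero hb' hd, ?_⟩
    have h3 : (z : ℚ) = -((b : ℚ) ^ 2 * s) := by
      rw [← hbz, h]
      push_cast
      rfl
    rw [hν1, h3]
    push_cast
    field_simp

theorem no_rat {F : ℤ[X]} (hF : 1 ≤ F.natDegree) {a b c : ℤ} (hc : Cert (-a) b (c - a * b))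
    (P : Point (fac F a b c) 1 ℚ) : False := by
  have hb := hc.n_ne
  have hk := hc.1
  obtain ⟨ξ, η, A1, B1, h1, h2, h3, h4, h5⟩ := val_spec hF hb hk P
  obtain ⟨N, t, hN, ht, hν⟩ := sqf_rat h3
  refine cert_local hc hN ?_
  intro p hp
  have hN0 : (N : ℚ_[p]) ≠ 0 := by exact_mod_cast hN.ne_zero
  rw [hν] at h4 h5
  have h4' : ((ξ ^ 2 + a * η ^ 2 : ℚ) : ℚ_[p]) = ((N * t ^ 2 * A1 ^ 2 : ℚ) : ℚ_[p]) := by rw [h4]
  have h5' : ((b * ξ ^ 2 + c * η ^ 2 : ℚ) : ℚ_[p]) = ((N * t ^ 2 * B1 ^ 2 : ℚ) : ℚ_[p]) := by rw [h5]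
  push_cast at h4' h5'
  refine local_sol (p := p) (m := -a) (n := b) (k := c - a * b) (ξ := (ξ : ℚ_[p]))
    (η := (η : ℚ_[p])) (A1 := ((t * A1 : ℚ) : ℚ_[p])) (B1 := ((t * B1 : ℚ) : ℚ_[p])) hk hN0 ?_ ?_ ?_ ?_
  · push_cast
    linear_combination h4'
  · push_cast
    linear_combination h5'
  · rcases h1 with h | h
    · exact Or.inl (by exact_mod_cast h)
    · exact Or.inr (by exact_mod_cast h)
  · rcases h2 with h | h
    · exact Or.inl (by exact_mod_cast mul_ne_zero ht h)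
    · exact Or.inr (by exact_mod_cast mul_ne_zero ht h)

/-- a point of the curve from a solution -/
theorem point_of {F : ℤ[X]} (hF : 1 ≤ F.natDegree) {a b c : ℤ} (hb : b ≠ 0) {K : Type} [Field K]
    [CharZero K] (h : SolF F (-a) b (c - a * b) K) : Nonempty (Point (fac F a b c) 1 K) := by
  obtain ⟨x, y, h⟩ := h
  have d0 : (F ^ 2).natDegree = F.natDegree * 2 := by rw [natDegree_pow, mul_comm]
  have d1 := nat_sq F b hb
  refine ⟨⟨x, 1, y, Or.inr one_ne_zero, ?_⟩⟩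
  rw [Fin.prod_univ_two, fac_zero, fac_one, Pool.Agent.W930.BMX.homog_div _ one_ne_zero,
    Pool.Agent.W930.BMX.homog_div _ one_ne_zero, div_one, eval₂_add, eval₂_add, eval₂_mul,
    eval₂_pow, eval₂_C, eval₂_C, eval₂_C, h]
  simp only [eq_intCast]
  push_cast
  ring

end Pool.Agent.H14Q
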